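import Pool.Agent.Lib.MP_6073f3_nt.Z.BDH1
import Pool.Agent.Lib.MP_6073f3_nt.Z.DispA

/-!
Dispersion along a family of linear forms `y + m x` with small periodic weights.
-/

set_option autoImplicit false

open Finset

namespace Pool.Agent.Lib.KL3

open Pool.Agent.Lib.RankZero

/-- The difference of the primes and their approximant. -/
noncomputable def DD (R n : ℕ) : ℝ := th n - Ls R n

lemma eh_eth {R Q c lo hi : ℕ} (hQ : 1 ≤ Q) (hR : Q ≤ R) (hc : c < Q) (h : lo ≤ hi) :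
    |cls (DD R) Q c lo hi| ≤ |Eth Q c lo hi| + 4 * (R : ℝ) ^ 3 := by
  have hQ0 : (0 : ℝ) < Q := by exact_mod_cast hQ
  have hR0 : (Q : ℝ) ≤ R := by exact_mod_cast hR
  have h1 := bdh_parseval (fun k => Eh R Q k lo hi - Eth Q k lo hi) hQ
  have h2 : ∀ m ∈ range Q, ‖∑ k ∈ range Q, ((Eh R Q k lo hi - Eth Q k lo hi : ℝ) : ℂ) *
      bdhE ((m : ℚ) / Q) k‖ ^ 2 ≤ (4 * (R : ℝ) ^ 2 * Q) ^ 2 := by
    intro m _
    have h3 : ((m : ℚ) / Q).den ∣ Q := by
      have := Rat.den_dvd (m : ℤ) Q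
      rw [Rat.divInt_eq_div, Int.cast_natCast, Int.cast_natCast] at this
      exact Int.natCast_dvd_natCast.1 this
    have h4 := bdh_eh hQ h3 R h
    rw [if_pos ((Nat.le_of_dvd hQ h3).trans hR), ← bdh_eth hQ h3, ← sum_sub_distrib] at h4
    refine pow_le_pow_left₀ (norm_nonneg _) (le_of_eq_of_le ?_ h4) 2
    exact congrArg _ (sum_congr rfl fun k _ => by rw [Complex.ofReal_sub, sub_mul])
  have h3 := sum_le_sum h2
  rw [h1, sum_const, card_range, nsmul_eq_mul] at h3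
  have h4 := (single_le_sum (f := fun k => (Eh R Q k lo hi - Eth Q k lo hi) ^ 2)
    (fun _ _ => sq_nonneg _) (mem_range.2 hc)).trans (le_of_mul_le_mul_left h3 hQ0)
  have h5 := abs_le_of_sq_le_sq' h4 (by positivity)
  have h6 : 4 * (R : ℝ) ^ 2 * Q ≤ 4 * (R : ℝ) ^ 3 := by nlinarith [sq_nonneg (R : ℝ)]
  have h7 : cls (DD R) Q c lo hi = Eh R Q c lo hi := rfl
  rw [h7, abs_le]
  constructor <;> linarith [h5.1, h5.2, le_abs_self (Eth Q c lo hi), neg_abs_le (Eth Q c lo hi)]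

lemma ap_sum (D V : ℕ → ℝ) {M d n lo hi : ℕ} {E : ℝ} (hM : 1 ≤ M) (hd : 1 ≤ d)
    (hV : ∀ x, V (x % M) = V x) (hb : ∀ x, |V x| ≤ 1)
    (hE : ∀ c < d * M, |cls D (d * M) c (n + d * lo) (n + d * hi)| ≤ E) :
    |∑ x ∈ Ioc lo hi, V x * D (n + d * x)| ≤ M * E := by
  rw [← sum_fiberwise_of_maps_to (g := (· % M)) (t := range M)
    fun x _ => mem_range.2 (Nat.mod_lt x hM)]
  refine (abs_sum_le_sum_abs _ _).trans ((sum_le_sum (g := fun _ => E) fun j hj => ?_).trans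
    (by simp))
  have hj' := mem_range.1 hj
  have e : ∑ x ∈ Ioc lo hi with x % M = j, V x * D (n + d * x) =
      V j * cls D (d * M) ((n + d * j) % (d * M)) (n + d * lo) (n + d * hi) := by
    rw [cls, mul_sum]
    refine sum_bij (fun x _ => n + d * x) (fun x hx => ?_) (fun x _ y _ h => ?_) (fun z hz => ?_)
      fun x hx => ?_
    · obtain ⟨h1, h2⟩ := mem_filter.1 hx
      obtain ⟨h3, h4⟩ := mem_Ioc.1 h1
      refine mem_filter.2 ⟨mem_Ioc.2 ⟨?_, ?_⟩, ?_⟩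
      · exact Nat.add_lt_add_left (Nat.mul_lt_mul_of_pos_left h3 hd) n
      · exact Nat.add_le_add_left (Nat.mul_le_mul_left d h4) n
      · exact (Nat.ModEq.mul_left' d (h2 ▸ (Nat.mod_modEq x M).symm)).add_left n
    · exact Nat.eq_of_mul_eq_mul_left hd (Nat.add_left_cancel h)
    · obtain ⟨h1, h2⟩ := mem_filter.1 hz
      obtain ⟨h3, h4⟩ := mem_Ioc.1 h1
      obtain ⟨z, rfl⟩ := Nat.exists_eq_add_of_le (show n ≤ z by omega)
      have h5 : z ≡ d * j [MOD d * M] := Nat.ModEq.add_left_cancel' n h2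
      obtain ⟨x, rfl⟩ : d ∣ z := (h5.dvd_iff (dvd_mul_right d M)).2 (dvd_mul_right d j)
      have h6 : x ≡ j [MOD M] := Nat.ModEq.mul_left_cancel' (by omega) h5
      refine ⟨x, mem_filter.2 ⟨mem_Ioc.2 ⟨?_, ?_⟩, ?_⟩, rfl⟩
      · exact Nat.lt_of_mul_lt_mul_left (Nat.lt_of_add_lt_add_left h3)
      · exact Nat.le_of_mul_le_mul_left (Nat.le_of_add_le_add_left h4) hd
      · exact Eq.trans h6 (Nat.mod_eq_of_lt hj')
    · rw [← (mem_filter.1 hx).2, hV]
  rw [e, abs_mul]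
  exact (mul_le_of_le_one_left (abs_nonneg _) (hb j)).trans
    (hE _ (Nat.mod_lt _ (Nat.mul_pos hd hM)))

lemma conv_Ioc (S : Finset ℕ) (h0 : 0 ∉ S)
    (hc : ∀ x ∈ S, ∀ z ∈ S, ∀ y, x ≤ y → y ≤ z → y ∈ S) :
    S = ∅ ∨ ∃ lo hi, hi ∈ S ∧ lo ≤ hi ∧ S = Ioc lo hi := by
  rcases S.eq_empty_or_nonempty with h | h
  · exact Or.inl h
  have h1 := S.min'_mem h
  have h2 := S.max'_mem h
  have h3 : S.min' h ≠ 0 := fun e => h0 (e ▸ h1)
  have h4 := S.min'_le _ h2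
  refine Or.inr ⟨S.min' h - 1, S.max' h, h2, by omega, ext fun y => ⟨fun hy => ?_, fun hy => ?_⟩⟩
  · have := S.min'_le _ hy
    exact mem_Ioc.2 ⟨by omega, S.le_max' _ hy⟩
  · have := mem_Ioc.1 hy
    exact hc _ h1 _ h2 y (by omega) this.2

lemma off_diag (D : ℕ → ℝ) {W : ℤ → ℤ → ℝ} {M a b N m m' X : ℕ} {B E : ℝ} (hM : 1 ≤ M)
    (hm : m' < m) (hW : Per M W) (hb : ∀ x y, |W x y| ≤ 1) (hX : b + N + m * (a + N) ≤ X)
    (hB : ∀ n ≤ X, |D n| ≤ B) (E0 : 0 ≤ E)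
    (hE : ∀ c lo hi, c < (m - m') * M → lo ≤ hi → hi ≤ X → |cls D ((m - m') * M) c lo hi| ≤ E) :
    |∑ x ∈ Ioc a (a + N), ∑ y ∈ Ioc b (b + N), W x y * (D (y + m * x) * D (y + m' * x))| ≤
      (X + 1) * (B * (M * E)) := by
  obtain ⟨d, rfl⟩ := Nat.exists_eq_add_of_le hm.le
  have hd : 1 ≤ d := by omega
  rw [Nat.add_sub_cancel_left] at hE
  have e : ∀ x ∈ Ioc a (a + N),
      ∑ y ∈ Ioc b (b + N), W x y * (D (y + (m' + d) * x) * D (y + m' * x)) =
      ∑ n ∈ range (X + 1), if b + m' * x < n ∧ n ≤ b + N + m' * x then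
        D n * (W x (n - m' * x) * D (n + d * x)) else 0 := by
    intro x hx
    have h1 := Nat.mul_le_mul_left m' (mem_Ioc.1 hx).2
    rw [← sum_filter]
    refine sum_bij (fun y _ => y + m' * x) (fun y hy => ?_) (fun y _ y' _ h => by omega)
      (fun n hn => ?_) fun y _ => ?_
    · have := mem_Ioc.1 hy
      rw [add_mul] at hX
      exact mem_filter.2 ⟨mem_range.2 (by omega), by omega, by omega⟩
    · have := (mem_filter.1 hn).2
      exact ⟨n - m' * x, mem_Ioc.2 ⟨by omega, by omega⟩, by omega⟩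
    · push_cast
      rw [add_sub_cancel_right, add_mul, ← add_assoc]
      ring
  rw [sum_congr rfl e, sum_comm]
  refine (abs_sum_le_sum_abs _ _).trans ((sum_le_sum (g := fun _ => B * (M * E))
    fun n hn => ?_).trans (by simp))
  have hn' := hB n (Nat.lt_succ_iff.1 (mem_range.1 hn))
  rw [← sum_filter, ← mul_sum, abs_mul]
  refine mul_le_mul hn' ?_ (abs_nonneg _) ((abs_nonneg _).trans hn')
  rcases conv_Ioc ((Ioc a (a + N)).filter fun x => b + m' * x < n ∧ n ≤ b + N + m' * x)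
    (by simp) (fun x hx z hz y h1 h2 => by
      simp only [mem_filter, mem_Ioc] at hx hz ⊢
      have h3 := Nat.mul_le_mul_left m' h1
      have h4 := Nat.mul_le_mul_left m' h2
      omega) with h | ⟨lo, hi, h1, h2, h3⟩
  · rw [h, sum_empty, abs_zero]
    positivity
  · rw [h3]
    refine ap_sum D (fun x => W x (n - m' * x)) hM hd (fun x => ?_) (fun x => hb _ _)
      fun c hc => hE c _ _ hc (Nat.add_le_add_left (Nat.mul_le_mul_left d h2) n) ?_
    · have h4 : (M : ℤ) ∣ x - (x % M : ℕ) := by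
        push_cast
        exact Int.dvd_self_sub_emod
      refine hW _ _ _ _ h4 ((h4.mul_left (-m')).trans (dvd_of_eq (by ring)))
    · simp only [mem_filter, mem_Ioc] at h1
      have h4 := Nat.mul_le_mul_left (m' + d) h1.1.2
      rw [add_mul] at h4
      omega

lemma disp {ι : Type} [DecidableEq ι] (F : Finset ι) (o i M : ι → ℕ) (D : ℕ → ℝ)
    (c : ℕ → ℕ → ℕ → ℝ) (w : ι → ℤ → ℤ → ℝ) {T a b N X R : ℕ} {B E C₂ C₃ : ℝ}
    (hF : ∀ e ∈ F, o e ∈ Icc 1 T ∧ i e ∈ Icc 1 T ∧ M e ∈ Icc 1 (T ^ 2) ∧ Per (M e) (w e) ∧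
      ∀ x y, |w e x y| ≤ 1)
    (hinj : ∀ e ∈ F, ∀ e' ∈ F, o e = o e' → i e = i e' → e = e')
    (hX : b + N + T * (a + N) ≤ X) (hB : ∀ n ≤ X, |D n| ≤ B) (E0 : 0 ≤ E) (hR : T ^ 5 ≤ R)
    (hE : ∀ Q c lo hi, 1 ≤ Q → Q ≤ R → c < Q → lo ≤ hi → hi ≤ X → |cls D Q c lo hi| ≤ E)
    (hc : ∀ k ∈ Icc 1 T, ∑ x ∈ Ioc a (a + N), ∑ y ∈ Ioc b (b + N), c k x y ^ 2 ≤ C₂)
    (hD : ∀ m ∈ Icc 1 T, ∑ x ∈ Ioc a (a + N), ∑ y ∈ Ioc b (b + N), D (y + m * x) ^ 2 ≤ C₃)
    (C0 : 0 ≤ C₂) :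
    (∑ e ∈ F, ∑ x ∈ Ioc a (a + N), ∑ y ∈ Ioc b (b + N),
      c (o e) x y * (w e x y * D (y + i e * x))) ^ 2 ≤
      T * C₂ * (#F * (C₃ + T * ((X + 1) * (B * (T ^ 4 * E))))) := by
  set I := Ioc a (a + N) with hI
  set J := Ioc b (b + N) with hJ
  set Z : ℝ := (X + 1) * (B * (T ^ 4 * E)) with hZ
  have B0 : 0 ≤ B := (abs_nonneg _).trans (hB 0 (Nat.zero_le _))
  have e1 : ∑ e ∈ F, ∑ x ∈ I, ∑ y ∈ J, c (o e) x y * (w e x y * D (y + i e * x)) =
      ∑ z ∈ Icc 1 T ×ˢ I ×ˢ J, c z.1 z.2.1 z.2.2 *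
        ∑ e ∈ F with o e = z.1, w e z.2.1 z.2.2 * D (z.2.2 + i e * z.2.1) := by
    rw [← sum_fiberwise_of_maps_to (g := o) fun e he => (hF e he).1, sum_product]
    refine sum_congr rfl fun k _ => ?_
    rw [sum_product, sum_comm]
    refine sum_congr rfl fun x _ => ?_
    rw [sum_comm]
    refine sum_congr rfl fun y _ => ?_
    rw [mul_sum]
    exact sum_congr rfl fun e he => by rw [(mem_filter.1 he).2]
  have off : ∀ e ∈ F, ∀ e' ∈ F, i e' < i e → |∑ x ∈ I, ∑ y ∈ J,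
      w e x y * D (y + i e * x) * (w e' x y * D (y + i e' * x))| ≤ Z := by
    intro e he e' he' h
    obtain ⟨-, a2, a3, a4, a5⟩ := hF e he
    obtain ⟨-, b2, b3, b4, b5⟩ := hF e' he'
    rw [mem_Icc] at a2 a3 b2 b3
    have hM : M e * M e' ≤ T ^ 4 := (Nat.mul_le_mul a3.2 b3.2).trans_eq (by ring)
    have hM1 : 1 ≤ M e * M e' := Nat.mul_pos a3.1 b3.1
    have := off_diag D (W := fun x y => w e x y * w e' x y) (M := M e * M e') (a := a) (b := b)
      (N := N) (X := X) hM1 h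
      (fun x y x' y' h1 h2 => by
        push_cast at h1 h2
        beta_reduce
        rw [a4 x y x' y' (dvd_of_mul_right_dvd h1) (dvd_of_mul_right_dvd h2),
          b4 x y x' y' (dvd_of_mul_left_dvd h1) (dvd_of_mul_left_dvd h2)])
      (fun x y => by
        rw [abs_mul]
        exact mul_le_one₀ (a5 x y) (abs_nonneg _) (b5 x y))
      (le_trans (by gcongr; exact a2.2) hX) hB E0
      fun c lo hi => hE _ c lo hi (Nat.mul_pos (by omega) hM1)
        (((Nat.mul_le_mul (show i e - i e' ≤ T by omega) hM).trans_eq (by ring)).trans hR)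
    refine le_trans (le_of_eq (congrArg _ (sum_congr rfl fun x _ => sum_congr rfl fun y _ =>
      by ring))) (this.trans ?_)
    have h3 : ((M e * M e' : ℕ) : ℝ) ≤ (T : ℝ) ^ 4 := by exact_mod_cast hM
    rw [hZ]
    gcongr
  have Z0 : 0 ≤ Z := by positivity
  have e2 : ∑ z ∈ Icc 1 T ×ˢ I ×ˢ J,
      (∑ e ∈ F with o e = z.1, w e z.2.1 z.2.2 * D (z.2.2 + i e * z.2.1)) ^ 2 ≤
      #F * (C₃ + T * Z) := by
    rw [card_eq_sum_ones, Nat.cast_sum, sum_mul,
      ← sum_fiberwise_of_maps_to (g := o) fun e he => (hF e he).1, sum_product]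
    refine sum_le_sum fun k _ => ?_
    simp only [sq, sum_mul_sum]
    rw [sum_comm]
    refine sum_le_sum fun e he => ?_
    obtain ⟨he1, he2⟩ := mem_filter.1 he
    rw [sum_comm, ← add_sum_erase _ _ he, Nat.cast_one, one_mul]
    refine add_le_add ?_ ((sum_le_sum (g := fun _ => Z) fun e' he' => ?_).trans ?_)
    · refine le_trans ?_ (hD _ (hF e he1).2.1)
      rw [sum_product]
      refine sum_le_sum fun x _ => sum_le_sum fun y _ => ?_
      have h1 := (sq_le_one_iff_abs_le_one _).2 ((hF e he1).2.2.2.2 x y)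
      nlinarith [mul_le_mul_of_nonneg_right h1 (sq_nonneg (D (y + i e * x)))]
    · obtain ⟨h1, h2⟩ := mem_erase.1 he'
      obtain ⟨h3, h4⟩ := mem_filter.1 h2
      rw [sum_product]
      rcases lt_trichotomy (i e') (i e) with h | h | h
      · exact (le_abs_self _).trans (off e he1 e' h3 h)
      · exact absurd (hinj e' h3 e he1 (h4.trans he2.symm) h) h1
      · refine le_trans (le_of_eq (sum_congr rfl fun x _ => sum_congr rfl fun y _ =>
          mul_comm _ _)) ((le_abs_self _).trans (off e' h3 e he1 h))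
    · rw [sum_const, nsmul_eq_mul]
      refine mul_le_mul_of_nonneg_right (Nat.cast_le.2 (card_erase_le.trans ?_)) Z0
      refine (card_le_card_of_injOn (t := Icc 1 T) i (fun e' he' => (hF e' (mem_filter.1 he').1).2.1)
        fun u hu v hv h => hinj u (mem_filter.1 hu).1 v (mem_filter.1 hv).1
          ((mem_filter.1 hu).2.trans (mem_filter.1 hv).2.symm) h).trans (by simp)
  have e3 : ∑ z ∈ Icc 1 T ×ˢ I ×ˢ J, c z.1 z.2.1 z.2.2 ^ 2 ≤ T * C₂ := by
    rw [sum_product]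
    refine (sum_le_sum (g := fun _ => C₂) fun k hk => ?_).trans (by simp)
    rw [sum_product]
    exact hc k hk
  rw [e1]
  refine (sum_mul_sq_le_sq_mul_sq _ _ _).trans (mul_le_mul e3 e2 ?_ (by positivity))
  exact sum_nonneg fun _ _ => sq_nonneg _

lemma l2_Ls {R N : ℕ} {L : ℝ} (hR : 1 ≤ R) (hN : R ^ 4 ≤ N) (hL : 1 + Real.log (R ^ 4 : ℕ) ≤ L)
    (b s : ℕ) : ∑ y ∈ Ioc b (b + N), Ls R (y + s) ^ 2 ≤ 4 * N * L ^ 20 := by
  have hN1 : 1 ≤ N := (Nat.one_le_pow _ _ hR).trans hN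
  have hN0 : (0 : ℝ) < N := by exact_mod_cast hN1
  have hN' : (R : ℝ) ^ 4 ≤ N := by exact_mod_cast hN
  have l0 := Real.log_natCast_nonneg R
  have l1 : 1 + Real.log R ≤ L := by
    rw [Nat.cast_pow, Real.log_pow] at hL
    push_cast at hL
    linarith
  have e : ∑ y ∈ Ioc b (b + N), Ls R (y + s) ^ 2 = ∑ n ∈ Ioc (b + s) (b + s + N), Ls R n ^ 2 := by
    rw [add_right_comm, ← map_add_right_Ioc, sum_map]
    rfl
  have h1 := dp_rect (Nat.coprime_one_left 0) R (b + s) N 0 N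
  rw [sum_product] at h1
  simp only [Nat.cast_one, one_mul, Nat.cast_zero, zero_mul, sub_zero, sum_const, Nat.card_Ioc,
    zero_add, Nat.sub_zero, nsmul_eq_mul] at h1
  rw [← mul_sum] at h1
  have h2 : ∑ n ∈ Ioc (b + s) (b + s + N), (dpT R n : ℝ) ^ 4 ≤ 4 * N * L ^ 16 := by
    refine le_of_mul_le_mul_left (h1.trans ?_) hN0
    have l2 := Real.log_natCast_nonneg (R ^ 4)
    calc _ ≤ ((N : ℝ) + N) * (N + N) * L ^ 16 := by gcongr
      _ = _ := by ring
  rw [e]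
  refine (sum_le_sum (g := fun n : ℕ => (dpT R n : ℝ) ^ 4 * L ^ 4) fun n _ => ?_).trans ?_
  · have h3 := pow_le_pow_left₀ (abs_nonneg _) (dp_Ls (le_refl R) n) 2
    rw [sq_abs, mul_pow, ← pow_mul] at h3
    have h4 : (dpT R n : ℝ) ^ 2 ≤ (dpT R n : ℝ) ^ 4 := by
      have : dpT R n ^ 2 ≤ dpT R n ^ 4 := by
        rcases Nat.eq_zero_or_pos (dpT R n) with h | h
        · simp [h]
        · exact Nat.pow_le_pow_right h (by norm_num)
      exact_mod_cast this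
    refine h3.trans ?_
    gcongr
  · rw [← sum_mul]
    refine (mul_le_mul_of_nonneg_right h2 (by positivity)).trans_eq (by ring)

lemma abs_Ls (R n : ℕ) : |Ls R n| ≤ R := by
  refine (abs_sum_le_sum_abs _ _).trans ((sum_le_sum fun r _ => bdh_lam_le r n).trans ?_)
  rw [sum_const, nsmul_eq_mul, mul_one]
  exact_mod_cast (card_filter_le _ _).trans (by simp)

end Pool.Agent.Lib.KL3
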