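import Pool.Agent.Lib.MP_ce1fc8_nt.Sieve3
import Pool.Agent.Lib.MP_6073f3_nt.Z.SW
import Pool.Agent.Lib.MP_6073f3_nt.Z.Step3a
import Pool.Agent.Lib.MP_6073f3_nt.Z.DispA

/-!
Many pairs `(k, m)` of multiples of six with `k m - 1` prime.
-/

set_option autoImplicit false

open Finset Filter

namespace Pool.Agent.Lib.KL3

open Pool.Agent.Lib.RankZero Pool.Agent.Lib.MP_ce1fc8_nt

theorem pair_bound (a y X : ℕ) (ha : a ≠ 0) (h6 : 6 ∣ a) (hy : 1 ≤ y) (E : Finset ℕ)
    (hE : E ⊆ range X) (hEp : ∀ n ∈ E, n.Prime ∧ (a * n - 1).Prime) :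
    (E.card : ℝ) ≤ eul a ^ 2 * (X / Real.log ((y : ℝ) + 1) ^ 2 + 4 * ((y : ℝ) ^ 2) ^ 4) := by
  classical
  set z := y ^ 2 with hz
  have hz1 : 1 ≤ z := Nat.one_le_pow _ _ hy
  set P := (range (z + 1)).filter (fun p => p.Prime ∧ ¬ p ∣ a) with hP
  set hh : ℕ → ℝ := fun p => ((2 : ℕ) : ℝ) / ((p : ℝ) - (2 : ℕ)) with hhh
  have h5 : ∀ p, p.Prime → ¬ p ∣ a → 2 * 2 ≤ p := fun p hp h =>
    le_trans (by norm_num) (hp.five_le_of_ne_two_of_ne_three
      (by rintro rfl; exact h ((by norm_num : 2 ∣ 6).trans h6))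
      (by rintro rfl; exact h ((by norm_num : 3 ∣ 6).trans h6)))
  have hPp : ∀ p ∈ P, p.Prime := fun p hp => (mem_filter.mp hp).2.1
  have hPk : ∀ p ∈ P, (4 : ℝ) ≤ p := fun p hp => by
    exact_mod_cast h5 p (hPp p hp) (mem_filter.mp hp).2.2
  have hcount : ∀ p ∈ P, ∀ α β : ℝ, ∑ r ∈ range p,
      (if (r : ZMod p) = 0 ∨ (a : ZMod p) * r = 1 then α else β) = 2 * α + ((p : ℝ) - 2) * β := by
    intro p hp α β
    have := Fact.mk (hPp p hp)
    have h0 : (a : ZMod p) ≠ 0 := fun h =>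
      (mem_filter.mp hp).2.2 ((ZMod.natCast_eq_zero_iff a p).1 h)
    have h1 := s3_sum_affine p (fun t => if t = 0 ∨ (a : ZMod p) * t = 1 then α else β) 0 1
      one_ne_zero
    simp only [one_mul, add_zero] at h1
    have h2 : (univ.filter fun t : ZMod p => t = 0 ∨ (a : ZMod p) * t = 1) = {0, (a : ZMod p)⁻¹} := by
      ext t
      simp only [mem_filter, mem_univ, true_and, mem_insert, mem_singleton]
      exact or_congr Iff.rfl ⟨fun h => (inv_eq_of_mul_eq_one_right h).symm,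
        fun h => by rw [h, mul_inv_cancel₀ h0]⟩
    have h3 := card_filter_add_card_filter_not (s := (univ : Finset (ZMod p)))
      fun t => t = 0 ∨ (a : ZMod p) * t = 1
    rw [h2, card_pair (inv_ne_zero h0).symm, card_univ, ZMod.card] at h3
    have h4 := congrArg (Nat.cast : ℕ → ℝ) h3
    rw [Nat.cast_add, Nat.cast_ofNat] at h4
    rw [h1, sum_ite, sum_const, sum_const, nsmul_eq_mul, nsmul_eq_mul, h2,
      card_pair (inv_ne_zero h0).symm, eq_sub_of_add_eq' h4, Nat.cast_ofNat]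
  have hmain := sieve_abstract P hPp
    (fun p n => if (n : ZMod p) = 0 ∨ (a : ZMod p) * n = 1 then -1 else hh p) hh
    (by
      intro p _ n
      simp only [Nat.cast_add, CharP.cast_eq_zero, add_zero])
    (by
      intro p hp n
      have := hPk p hp
      split_ifs
      · simp
      · simp only [hhh, Nat.cast_ofNat]
        rw [abs_of_nonneg (div_nonneg (by linarith) (by linarith)), div_le_one (by linarith)]
        linarith)
    (by
      intro p hp
      have := hPk p hp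
      rw [hcount p hp]
      simp only [hhh, Nat.cast_ofNat]
      have : (p : ℝ) - 2 ≠ 0 := by linarith
      field_simp
      ring)
    (by
      intro p hp
      have := hPk p hp
      have e : ∀ r : ℕ, (if (r : ZMod p) = 0 ∨ (a : ZMod p) * r = 1 then (-1 : ℝ) else hh p) *
          (if (r : ZMod p) = 0 ∨ (a : ZMod p) * r = 1 then (-1 : ℝ) else hh p) =
          if (r : ZMod p) = 0 ∨ (a : ZMod p) * r = 1 then (1 : ℝ) else hh p * hh p := by
        intro r
        split_ifs <;> simp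
      simp only [e]
      rw [hcount p hp]
      simp only [hhh, Nat.cast_ofNat]
      have : (p : ℝ) - 2 ≠ 0 := by linarith
      field_simp
      ring)
    X z (E.filter (fun n => z < n)) ((filter_subset _ _).trans hE)
    (by
      intro n hn p hp
      obtain ⟨hn1, hn2⟩ := mem_filter.mp hn
      obtain ⟨h1, h2⟩ := hEp n hn1
      have h3 := mem_range.mp (mem_filter.mp hp).1
      have h4 := Nat.mul_le_mul_right n (Nat.le_of_dvd (Nat.pos_of_ne_zero ha) h6)
      rw [if_neg]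
      rintro (h | h)
      · have := (Nat.prime_dvd_prime_iff_eq (hPp p hp) h1).1 ((ZMod.natCast_eq_zero_iff n p).1 h)
        omega
      · have := (Nat.prime_dvd_prime_iff_eq (hPp p hp) h2).1 ((ZMod.natCast_eq_zero_iff _ p).1 (by
          rw [Nat.cast_sub (by omega), Nat.cast_mul, h, Nat.cast_one, sub_self]))
        omega)
  have hG1 := Gsum_lower 2 a y ha one_le_two h5
  rw [← hz, ← hP, ← hhh] at hG1
  have hG2 : 1 ≤ Gsum hh P z := by
    unfold Gsum
    have h1 : (∅ : Finset ℕ) ∈ P.powerset.filter (fun D => ∏ p ∈ D, p ≤ z) := by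
      simp [hz1]
    have h2 := single_le_sum (f := fun D : Finset ℕ => ∏ p ∈ D, hh p) (fun D hD => by
      apply prod_nonneg
      intro p hp
      have := hPk p (mem_powerset.mp (mem_filter.mp hD).1 hp)
      simp only [hhh, Nat.cast_ofNat]
      exact div_nonneg (by linarith) (by linarith)) h1
    simpa using h2
  set G := Gsum hh P z with hG
  have hlog : 0 < Real.log ((y : ℝ) + 1) := by
    apply Real.log_pos
    have : (1 : ℝ) ≤ y := by exact_mod_cast hy
    linarith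
  have he1 := one_le_eul a
  have hek : 1 ≤ eul a ^ 2 := one_le_pow₀ he1
  have hz' : (1 : ℝ) ≤ z := by exact_mod_cast hz1
  have h1 : ((E.filter (fun n => z < n)).card : ℝ) ≤ X / G + 2 * (z : ℝ) ^ 4 := by
    have h2 : ((E.filter (fun n => z < n)).card : ℝ) * G ^ 2 ≤ (X / G + 2 * (z : ℝ) ^ 4) * G ^ 2 := by
      refine hmain.trans ?_
      have h3 : 1 ≤ G ^ 2 := one_le_pow₀ hG2
      have h4 : (X / G + 2 * (z : ℝ) ^ 4) * G ^ 2 = X * G + 2 * (z : ℝ) ^ 4 * G ^ 2 := by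
        field_simp
      rw [h4]
      have h5 : 2 * (z : ℝ) ^ 4 * 1 ≤ 2 * (z : ℝ) ^ 4 * G ^ 2 := by gcongr
      linarith
    exact le_of_mul_le_mul_right h2 (by positivity)
  have h2 : (X : ℝ) / G ≤ eul a ^ 2 * (X / Real.log ((y : ℝ) + 1) ^ 2) := by
    calc (X : ℝ) / G ≤ X / (Real.log ((y : ℝ) + 1) / eul a) ^ 2 := by
          apply div_le_div_of_nonneg_left (by positivity) (by positivity) hG1
      _ = _ := by rw [div_pow]; field_simp
  have h3 : E.card ≤ (E.filter (fun n => z < n)).card + (z + 1) := by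
    have hsub : E ⊆ E.filter (fun n => z < n) ∪ range (z + 1) := by
      intro n hn
      simp only [mem_union, mem_filter, mem_range]
      by_cases hc : z < n
      · exact Or.inl ⟨hn, hc⟩
      · exact Or.inr (by omega)
    have := (card_le_card hsub).trans (card_union_le _ _)
    rwa [card_range] at this
  have h4 : (E.card : ℝ) ≤ (E.filter (fun n => z < n)).card + (z + 1) := by exact_mod_cast h3
  have h5 : (z : ℝ) ≤ (z : ℝ) ^ 4 := le_self_pow₀ hz' (by norm_num)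
  have h6 : ((y : ℝ) ^ 2) = z := by rw [hz]; push_cast; ring
  rw [h6, mul_add]
  have h7 : 1 * (4 * (z : ℝ) ^ 4) ≤ eul a ^ 2 * (4 * (z : ℝ) ^ 4) := by gcongr
  linarith

theorem factor {n W z : ℕ} (hn : n ≠ 0) (hW : 1 ≤ W) (hz : 1 ≤ z) (h1 : n ≤ W * z * z)
    (h2 : ∀ P, P.Prime → P ∣ n → P ≤ W) : ∃ d j, n = d * j ∧ d ≤ W * z ∧ j ≤ W * z := by
  have h3 : 1 ≤ W * z := Nat.mul_pos hW hz
  obtain ⟨d, hd, hmax⟩ := exists_max_image (n.divisors.filter (· ≤ W * z)) id
    ⟨1, mem_filter.2 ⟨Nat.one_mem_divisors.2 hn, h3⟩⟩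
  obtain ⟨h4, h5⟩ := mem_filter.1 hd
  obtain ⟨j, rfl⟩ := Nat.dvd_of_mem_divisors h4
  refine ⟨d, j, rfl, h5, ?_⟩
  by_cases hj : j = 1
  · omega
  have hp := Nat.minFac_prime hj
  have h6 := h2 _ hp ((Nat.minFac_dvd j).mul_left d)
  have hd0 := Nat.pos_of_mem_divisors h4
  have h7 : W * z < d * j.minFac := by
    by_contra h
    have := hmax (d * j.minFac) (mem_filter.2 ⟨Nat.mem_divisors.2
      ⟨mul_dvd_mul_left d (Nat.minFac_dvd j), hn⟩, not_lt.1 h⟩)
    have h8 := hp.two_le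
    simp only [id] at this
    nlinarith
  have h8 : z < d := by
    by_contra h
    nlinarith [Nat.mul_le_mul (not_lt.1 h) h6]
  exact Nat.le_of_mul_le_mul_right (by nlinarith) hz

theorem sum_eul : ∃ C : ℝ, 0 < C ∧ ∀ I : ℕ, 1 ≤ I →
    ∑ i ∈ Icc 1 I, eul (36 * i) ^ 2 * (i : ℝ)⁻¹ ≤ C * (1 + Real.log I) := by
  obtain ⟨C, hC, h⟩ := eul_pow_le 2
  have e0 := one_le_eul 36
  refine ⟨eul 36 ^ 2 * C * 3, by positivity, fun I hI => ?_⟩
  refine (sum_le_sum (g := fun i : ℕ => eul 36 ^ 2 * C * ∑ e ∈ Icc 1 I, 1 / Real.sqrt e *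
    if e ∣ i then (i : ℝ)⁻¹ else 0) fun i hi => ?_).trans ?_
  · obtain ⟨h1, h2⟩ := mem_Icc.1 hi
    have h3 := pow_le_pow_left₀ (zero_le_one.trans (one_le_eul _))
      (eul_mul_le 36 i (by norm_num) (by omega)) 2
    have h4 : ∑ e ∈ i.divisors, 1 / Real.sqrt e * (i : ℝ)⁻¹ ≤
        ∑ e ∈ Icc 1 I, 1 / Real.sqrt e * if e ∣ i then (i : ℝ)⁻¹ else 0 := by
      simp only [mul_ite, mul_zero, ← sum_filter]
      exact sum_le_sum_of_subset_of_nonneg (fun e he => mem_filter.2 ⟨mem_Icc.2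
        ⟨Nat.pos_of_mem_divisors he, (Nat.divisor_le he).trans h2⟩, Nat.dvd_of_mem_divisors he⟩)
        fun _ _ _ => by positivity
    rw [← sum_mul] at h4
    rw [mul_pow] at h3
    calc _ ≤ eul 36 ^ 2 * (C * ∑ e ∈ i.divisors, 1 / Real.sqrt e) * (i : ℝ)⁻¹ :=
          mul_le_mul_of_nonneg_right (h3.trans (mul_le_mul_of_nonneg_left (h i (by omega))
            (by positivity))) (by positivity)
      _ = eul 36 ^ 2 * C * ((∑ e ∈ i.divisors, 1 / Real.sqrt e) * (i : ℝ)⁻¹) := by ring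
      _ ≤ _ := mul_le_mul_of_nonneg_left h4 (by positivity)
  · rw [← mul_sum, sum_comm, mul_assoc _ 3]
    refine mul_le_mul_of_nonneg_left ((sum_le_sum (g := fun e : ℕ =>
      1 / Real.sqrt e * (1 / (e : ℝ)) * (1 + Real.log I)) fun e he => ?_).trans ?_) (by positivity)
    · rw [← mul_sum]
      exact (mul_le_mul_of_nonneg_left (dp_harm I e (mem_Icc.1 he).1) (by positivity)).trans_eq
        (by ring)
    · rw [← sum_mul]
      have h1 := sum_inv_mul_sqrt_le I hI
      have h2 : 0 ≤ 2 / Real.sqrt I := by positivity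
      exact mul_le_mul_of_nonneg_right (by linarith) (by linarith [Real.log_natCast_nonneg I])

/-- The family of pairs. -/
def Fam (T : ℕ) : Finset (ℕ × ℕ) :=
  (Icc 1 T ×ˢ Icc 1 T).filter fun e => 6 ∣ e.1 ∧ 6 ∣ e.2 ∧ (e.1 * e.2 - 1).Prime

theorem cover_primes {W z : ℕ} (hW : 1 ≤ W) (hz : 1 ≤ z) :
    #(((Ioc 0 (36 * (W * z * z))).filter fun n => n % 36 = 35).filter Nat.Prime) ≤
      #(Fam (6 * (W * z))) + ∑ i ∈ Icc 1 (z * z),
        #((range (W * z * z / i + 1)).filter fun P => P.Prime ∧ (36 * i * P - 1).Prime) := by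
  refine (card_le_card (t := (Fam (6 * (W * z))).image (fun e => e.1 * e.2 - 1) ∪
    (Icc 1 (z * z)).biUnion fun i => ((range (W * z * z / i + 1)).filter
      fun P => P.Prime ∧ (36 * i * P - 1).Prime).image fun P => 36 * i * P - 1)
    fun l hl => ?_).trans ((card_union_le _ _).trans (Nat.add_le_add card_image_le
      (card_biUnion_le.trans (sum_le_sum fun _ _ => card_image_le))))
  simp only [mem_filter, mem_Ioc] at hl
  obtain ⟨⟨⟨-, h1⟩, h2⟩, h3⟩ := hl
  obtain ⟨n, hn⟩ : ∃ n, l + 1 = 36 * n := ⟨(l + 1) / 36, by omega⟩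
  have h4 : n ≤ W * z * z := by omega
  by_cases h : ∀ P, P.Prime → P ∣ n → P ≤ W
  · obtain ⟨d, j, rfl, h5, h6⟩ := factor (by omega) hW hz h4 h
    have h7 : 6 * d * (6 * j) - 1 = l := by
      rw [show 6 * d * (6 * j) = 36 * (d * j) by ring]
      omega
    have h8 : d * j ≠ 0 := by omega
    have h9 := mul_ne_zero_iff.1 h8
    refine mem_union_left _ (mem_image.2 ⟨(6 * d, 6 * j), mem_filter.2 ⟨mem_product.2
      ⟨mem_Icc.2 ⟨by omega, by omega⟩, mem_Icc.2 ⟨by omega, by omega⟩⟩, dvd_mul_right _ _,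
      dvd_mul_right _ _, h7 ▸ h3⟩, h7⟩)
  · push Not at h
    obtain ⟨P, h5, ⟨i, rfl⟩, h6⟩ := h
    have h7 : 36 * i * P - 1 = l := by
      rw [show 36 * i * P = 36 * (P * i) by ring]
      omega
    have h8 : 0 < i := Nat.pos_of_ne_zero (by rintro rfl; omega)
    refine mem_union_right _ (mem_biUnion.2 ⟨i, mem_Icc.2 ⟨h8, ?_⟩, mem_image.2 ⟨P, mem_filter.2
      ⟨mem_range.2 (Nat.lt_succ_of_le ((Nat.le_div_iff_mul_le h8).2 h4)), h5, h7 ▸ h3⟩, h7⟩⟩)
    exact Nat.le_of_mul_le_mul_left (by nlinarith) hW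

theorem fam : ∃ h : ℕ, ∀ᶠ z : ℕ in atTop,
    (z : ℝ) ^ (h + 1) ≤ (h + 5) * Real.log z * #(Fam (6 * z ^ h)) := by
  obtain ⟨C, hC, h1⟩ := sum_eul
  obtain ⟨C', h2⟩ := siegel_walfisz 1 1
  obtain ⟨s, hs⟩ := exists_nat_ge (135 * C + 1)
  have s1 : (1 : ℝ) ≤ s := by linarith
  refine ⟨8 * s + 2, ?_⟩
  have t1 : Tendsto (fun z : ℕ => Real.log z) atTop atTop :=
    Real.tendsto_log_atTop.comp tendsto_natCast_atTop_atTop
  have t2 := ((Real.isLittleO_pow_log_id_atTop (n := 2)).comp_tendsto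
    (tendsto_natCast_atTop_atTop (R := ℝ))).bound (show 0 < 1 / (4 * (s : ℝ) ^ 2) by positivity)
  filter_upwards [t1.eventually_ge_atTop (36 * |C'| + 36), t2, eventually_ge_atTop 1]
    with z a1 a2 a3
  have z1 : (1 : ℝ) ≤ z := by exact_mod_cast a3
  set u := Real.log z with hu
  have u1 : 36 ≤ u := by linarith [abs_nonneg C']
  have a4 : 4 * (s * u) ^ 2 ≤ z := by
    simp only [Function.comp, id, Real.norm_eq_abs, Nat.abs_cast, ← hu] at a2
    rw [abs_of_nonneg (sq_nonneg _), one_div, inv_mul_eq_div, le_div_iff₀ (by positivity)] at a2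
    nlinarith
  have hc := cover_primes (W := z ^ (8 * s + 1)) (Nat.one_le_pow _ _ a3) a3
  rw [← pow_succ, ← pow_succ] at hc
  set L := z ^ (8 * s + 1 + 1 + 1) with hL
  have L1 : 1 ≤ L := Nat.one_le_pow _ _ a3
  have hL' : (L : ℝ) = (z : ℝ) ^ (8 * s + 3) := by rw [hL, Nat.cast_pow]
  have L0 : (0 : ℝ) < L := by exact_mod_cast L1
  have l1 : Real.log (36 * L : ℕ) = Real.log 36 + (8 * s + 3) * u := by
    rw [Nat.cast_mul, Real.log_mul (by norm_num) L0.ne', hL', Real.log_pow]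
    push_cast
    rfl
  have l2 : 0 ≤ Real.log 36 := Real.log_nonneg (by norm_num)
  have l3 : Real.log 36 ≤ 36 := (Real.log_le_sub_one_of_pos (by norm_num)).trans (by norm_num)
  have l4 : u ≤ Real.log (36 * L : ℕ) := by nlinarith
  have l5 : Real.log (36 * L : ℕ) ≤ (8 * s + 7) * u := by nlinarith
  have b1 := h2 (36 * L) 36 35 (36 * L) (by omega) (by norm_num)
    (by rw [pow_one]; push_cast at l4 ⊢; linarith) le_rfl (by norm_num)
  rw [Eth, if_pos (by norm_num), show Nat.totient 36 = 12 by decide, pow_one, Nat.sub_zero] at b1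
  have b2 : C' * (36 * L : ℕ) / Real.log (36 * L : ℕ) ≤ L := by
    rw [div_le_iff₀ (by linarith)]
    rw [Nat.cast_mul (m := 36), Nat.cast_ofNat] at l4 ⊢
    nlinarith [le_abs_self C']
  have b3 : cls th 36 35 0 (36 * L) ≤ (8 * s + 7) * u *
      #(((Ioc 0 (36 * L)).filter fun n => n % 36 = 35).filter Nat.Prime) := by
    unfold cls th
    rw [← sum_filter, mul_comm (_ * u), ← nsmul_eq_mul]
    refine sum_le_card_nsmul _ _ _ fun n hn => le_trans (Real.log_le_log ?_ ?_) l5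
    · exact_mod_cast (mem_filter.1 hn).2.pos
    · exact_mod_cast (mem_Ioc.1 (mem_filter.1 (mem_filter.1 hn).1).1).2
  have b4 : 2 * (L : ℝ) ≤ cls th 36 35 0 (36 * L) := by
    have := (abs_le.1 (b1.trans b2)).1
    push_cast at this
    linarith
  have b5 : ∀ i ∈ Icc 1 (z * z), (#((range (L / i + 1)).filter
      fun P => P.Prime ∧ (36 * i * P - 1).Prime) : ℝ) ≤
      eul (36 * i) ^ 2 * (i : ℝ)⁻¹ * (3 * L / (s * u) ^ 2) := by
    intro i hi
    obtain ⟨c1, c2⟩ := mem_Icc.1 hi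
    have i0 : (0 : ℝ) < i := by exact_mod_cast c1
    have c3 : (i : ℝ) ≤ z * z := by exact_mod_cast c2
    refine (pair_bound (36 * i) (z ^ s) _ (by omega) ⟨6 * i, by ring⟩ (Nat.one_le_pow _ _ a3) _
      (filter_subset _ _) fun n hn => (mem_filter.1 hn).2).trans ?_
    rw [mul_assoc]
    refine mul_le_mul_of_nonneg_left ?_ (sq_nonneg _)
    have c4 : s * u ≤ Real.log (((z ^ s : ℕ) : ℝ) + 1) := by
      rw [hu, ← Real.log_pow, Nat.cast_pow]
      exact Real.log_le_log (by positivity) (by linarith)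
    have c5 : (i : ℝ) * (z * (z : ℝ) ^ (8 * s)) ≤ L := by
      rw [hL']
      calc _ ≤ (z : ℝ) * z * (z * (z : ℝ) ^ (8 * s)) := by gcongr
        _ = _ := by ring
    have c6 : (1 : ℝ) ≤ (z : ℝ) ^ (8 * s) := one_le_pow₀ z1
    have c7 : ((L / i + 1 : ℕ) : ℝ) ≤ 2 * L / i := by
      have d1 : ((L / i : ℕ) : ℝ) ≤ L / i := Nat.cast_div_le
      have d2 : (1 : ℝ) ≤ L / i := by
        rw [one_le_div i0]
        nlinarith [mul_le_mul z1 c6 zero_le_one (by linarith)]
      rw [Nat.cast_succ, mul_div_assoc]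
      linarith
    have c8 : 0 < s * u := by positivity
    have c9 : 4 * ((((z ^ s : ℕ) : ℝ)) ^ 2) ^ 4 ≤ L / i / (s * u) ^ 2 := by
      rw [Nat.cast_pow, ← pow_mul, ← pow_mul, le_div_iff₀ (by positivity), le_div_iff₀ i0,
        show s * (2 * 4) = 8 * s by ring]
      nlinarith [mul_le_mul_of_nonneg_left a4 (show 0 ≤ i * (z : ℝ) ^ (8 * s) by positivity)]
    calc _ ≤ 2 * L / i / (s * u) ^ 2 + L / i / (s * u) ^ 2 := by gcongr
      _ = _ := by field_simp; ring
  have b6 := sum_le_sum b5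
  rw [← sum_mul] at b6
  have b7 := h1 (z * z) (Nat.mul_pos a3 a3)
  rw [Nat.cast_mul, Real.log_mul (by positivity) (by positivity), ← hu] at b7
  have b8 : (8 * s + 7) * u * (C * (1 + (u + u)) * (3 * L / (s * u) ^ 2)) ≤ L := by
    have d1 : (8 * (s : ℝ) + 7) * (9 * C) ≤ s ^ 2 := by nlinarith
    calc _ ≤ (8 * s + 7) * u * (C * (3 * u) * (3 * L / (s * u) ^ 2)) := by
          gcongr
          linarith
      _ = (8 * (s : ℝ) + 7) * (9 * C) / s ^ 2 * L := by field_simp; ring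
      _ ≤ 1 * L := by
          gcongr
          rwa [div_le_one (by positivity)]
      _ = _ := one_mul _
  have b9 := (Nat.cast_le (α := ℝ)).2 hc
  rw [Nat.cast_add, Nat.cast_sum] at b9
  have b10 := b6.trans (mul_le_mul_of_nonneg_right b7 (by positivity))
  have b11 := mul_le_mul_of_nonneg_left (b9.trans (add_le_add_right b10 _))
    (show 0 ≤ (8 * (s : ℝ) + 7) * u by positivity)
  rw [← hL']
  push_cast
  rw [show 8 * (s : ℝ) + 2 + 5 = 8 * s + 7 by ring]
  linarith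

end Pool.Agent.Lib.KL3
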