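import Pool.Agent.Lib.KL3.Mean
import Pool.Agent.Lib.KL3.Disp

/-!
The main term for one pair of forms and the count of prime quadruples over a family.
-/

set_option autoImplicit false

open Finset

namespace Pool.Agent.Lib.KL3

open Pool.Agent.Lib.RankZero

/-- One term of the expansion of the two approximants. -/
noncomputable def trm (k m : ℕ) (G : ℤ → ℤ → ℝ) (A B : Finset ℕ) (x y : ℤ) : ℝ :=
  G x y * ((∏ q ∈ A, s3_g q (x + k * y)) * ∏ q ∈ B, s3_g q (y + m * x))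

/-- The product of the local densities. -/
noncomputable def kp (k m : ℕ) (A B : Finset ℕ) : ℝ := ∏ p ∈ A ∪ B, mean p (lf k m A B p)

theorem dvd_mod {l q : ℕ} {S : Finset ℕ} (h : q ∈ S) : q ∣ l * ∏ p ∈ S.erase l, p := by
  by_cases e : q = l
  · exact e ▸ dvd_mul_right _ _
  · exact (dvd_prod_of_mem (fun p => p) (mem_erase.2 ⟨e, h⟩)).mul_left l

theorem good_prod {k l Q : ℕ} (hl : l.Prime) {T : Finset ℕ} (hT : ∀ q ∈ T, q.Prime ∧ q ∣ Q)
    {x : ℕ} (hx : x.Coprime Q) (y : ℤ) (h : ¬ (l : ℤ) ∣ x + k * y) :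
    ∏ q ∈ T, s3_g q (x + k * y) = (∏ q ∈ T with q ∣ k * l, 1 / ((q : ℝ) - 1)) *
      ∏ q ∈ T with ¬ q ∣ k * l, s3_g q (x + k * y) := by
  rw [← prod_filter_mul_prod_filter_not T fun q => q ∣ k * l]
  congr 1
  refine prod_congr rfl fun q hq => if_neg fun h1 => ?_
  obtain ⟨h2, h3⟩ := mem_filter.1 hq
  obtain ⟨h4, h5⟩ := hT q h2
  rcases h4.dvd_mul.1 h3 with h6 | h6
  · have h7 := (dvd_add_left ((Int.natCast_dvd_natCast.2 h6).mul_right y)).1 h1
    exact h4.one_lt.ne' (Nat.eq_one_of_dvd_coprimes hx (Int.natCast_dvd_natCast.1 h7) h5)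
  · exact h ((Nat.prime_dvd_prime_iff_eq h4 hl).1 h6 ▸ h1)

theorem mean_trm {k m l : ℕ} (hl : l.Prime) {G : ℤ → ℤ → ℝ} (hG : Per l G)
    (hs : ∀ x y, G x y ≠ 0 → ¬ (l : ℤ) ∣ x + k * y ∧ ¬ (l : ℤ) ∣ y + m * x) {T T' : Finset ℕ}
    (hT : ∀ q ∈ T, q.Prime) (hT' : ∀ q ∈ T', q.Prime) :
    mean (l * ∏ p ∈ (T ∪ T').erase l, p) (trm k m G T T') = mean l G *
      ((∏ q ∈ T with q ∣ k * l, 1 / ((q : ℝ) - 1)) * ((∏ q ∈ T' with q ∣ m * l, 1 / ((q : ℝ) - 1)) *
        kp k m (T.filter fun q => ¬ q ∣ k * l) (T'.filter fun q => ¬ q ∣ m * l))) := by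
  set S := (T ∪ T').erase l with hS
  set A := T.filter fun q => ¬ q ∣ k * l with hA
  set B := T'.filter fun q => ¬ q ∣ m * l with hB
  have hp : ∀ p ∈ S, p.Prime := fun p hp =>
    (mem_union.1 (mem_erase.1 hp).2).elim (hT p) (hT' p)
  have a1 : A ⊆ S := fun q hq => mem_erase.2 ⟨fun e => (mem_filter.1 hq).2 (e ▸ dvd_mul_left _ _),
    mem_union_left _ (mem_filter.1 hq).1⟩
  have a2 : B ⊆ S := fun q hq => mem_erase.2 ⟨fun e => (mem_filter.1 hq).2 (e ▸ dvd_mul_left _ _),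
    mem_union_right _ (mem_filter.1 hq).1⟩
  rw [mean_scale (G := fun x y => G x y * ∏ p ∈ S, lf k m A B p x y)
    ((∏ q ∈ T with q ∣ k * l, 1 / ((q : ℝ) - 1)) * ∏ q ∈ T' with q ∣ m * l, 1 / ((q : ℝ) - 1))
    fun x y hx hy => ?_, mean_mul (Nat.Coprime.prod_right fun p h => (Nat.coprime_primes hl
      (hp p h)).2 (mem_erase.1 h).1.symm) hG fun x y x' y' h1 h2 => prod_congr rfl fun p h =>
        per_mono (lf_per k m A B p) (dvd_prod_of_mem (fun i => i) h) x y x' y' h1 h2,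
    mean_prod _ (lf_per k m A B) S hp, kp, prod_subset (union_subset a1 a2) fun p h h' =>
      lf_one k m (hp p h) (fun e => h' (mem_union_left _ e)) fun e => h' (mem_union_right _ e)]
  · ring
  · by_cases h0 : G x y = 0
    · simp only [trm, h0, zero_mul, mul_zero]
    · simp only [trm, lf, prod_mul_distrib, prod_ite_mem, inter_eq_right.2 a1, inter_eq_right.2 a2]
      rw [good_prod hl (fun q hq => ⟨hT q hq, dvd_mod (mem_union_left T' hq)⟩) hx _ (hs _ _ h0).1,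
        good_prod hl (fun q hq => ⟨hT' q hq, dvd_mod (mem_union_right T hq)⟩) hy _ (hs _ _ h0).2]
      ring

theorem series {k m l R : ℕ} (hl : l + 1 = k * m) (hk : 6 ∣ k) (hm : 6 ∣ m) (hR : 1 ≤ R) :
    1 / 10 ≤ ∑ r ∈ (Icc 1 R).filter Squarefree, ∑ r' ∈ (Icc 1 R).filter Squarefree,
      (∏ q ∈ r.primeFactors with q ∣ k * l, 1 / ((q : ℝ) - 1)) *
        ((∏ q ∈ r'.primeFactors with q ∣ m * l, 1 / ((q : ℝ) - 1)) *
        kp k m (r.primeFactors.filter fun q => ¬ q ∣ k * l)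
          (r'.primeFactors.filter fun q => ¬ q ∣ m * l)) := by
  have hinj : Set.InjOn Nat.primeFactors ((Icc 1 R).filter Squarefree : Finset ℕ) := by
    intro r hr r' hr' h
    rw [← Nat.prod_primeFactors_of_squarefree (mem_filter.1 hr).2,
      ← Nat.prod_primeFactors_of_squarefree (mem_filter.1 hr').2, h]
  set F := ((Icc 1 R).filter Squarefree).image Nat.primeFactors with hF
  set P := (range (R + 1)).filter fun p => p.Prime ∧ 5 ≤ p with hP
  have hmem : ∀ c : ℕ, 6 ∣ c → ∀ T ∈ F, ∀ q ∈ T, ¬ q ∣ c * l → q ∈ P := by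
    intro c hc T hT q hq h
    obtain ⟨r, hr, rfl⟩ := mem_image.1 hT
    have hp := Nat.prime_of_mem_primeFactors hq
    have h1 := (Nat.le_of_mem_primeFactors hq).trans (mem_Icc.1 (mem_filter.1 hr).1).2
    refine mem_filter.2 ⟨mem_range.2 (by omega), hp, hp.five_le_of_ne_two_of_ne_three ?_ ?_⟩
    · rintro rfl
      exact h (((by norm_num : 2 ∣ 6).trans hc).mul_right l)
    · rintro rfl
      exact h (((by norm_num : 3 ∣ 6).trans hc).mul_right l)
  have hw : ∀ q : ℕ, 0 ≤ |1 / ((q : ℝ) - 1)| := fun _ => abs_nonneg _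
  have key := fam2 F ?_ ?_ (fun q => q ∣ k * l) (fun q => q ∣ m * l)
    (fun q => |1 / ((q : ℝ) - 1)|) (fun q _ => hw q) (fun q _ => hw q) P (hmem k hk) (hmem m hm)
    (kp k m) (fun A B => ∏ p ∈ P, mj A B p) (by simp [kp])
    (fun A B => prod_nonneg fun p _ => by unfold mj; split_ifs <;> positivity) ?_
    (mj_sum P fun p hp => (mem_filter.1 hp).2)
  · refine key.trans_eq ?_
    have e : ∀ (c r : ℕ), ∏ q ∈ r.primeFactors with q ∣ c * l, |1 / ((q : ℝ) - 1)| =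
        ∏ q ∈ r.primeFactors with q ∣ c * l, 1 / ((q : ℝ) - 1) := fun c r =>
      prod_congr rfl fun q hq => by
        have : (2 : ℝ) ≤ q := by
          exact_mod_cast (Nat.prime_of_mem_primeFactors (mem_filter.1 hq).1).two_le
        exact abs_of_nonneg (div_nonneg zero_le_one (by linarith))
    rw [hF, sum_image hinj]
    refine sum_congr rfl fun r _ => ?_
    rw [sum_image hinj]
    exact sum_congr rfl fun r' _ => by rw [e, e]
  · intro T hT T' hT'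
    obtain ⟨r, hr, rfl⟩ := mem_image.1 hT
    obtain ⟨hr1, hr2⟩ := mem_filter.1 hr
    have hd : ∏ q ∈ T', q ∣ r :=
      (prod_dvd_prod_of_subset _ _ _ hT').trans (Nat.prod_primeFactors_dvd r)
    have hp : ∀ q ∈ T', q.Prime := fun q hq => Nat.prime_of_mem_primeFactors (hT' hq)
    refine mem_image.2 ⟨∏ q ∈ T', q, mem_filter.2 ⟨mem_Icc.2 ⟨prod_pos fun q hq => (hp q hq).pos,
      (Nat.le_of_dvd (mem_Icc.1 hr1).1 hd).trans (mem_Icc.1 hr1).2⟩,
      hr2.squarefree_of_dvd hd⟩, Nat.primeFactors_prod hp⟩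
  · exact mem_image.2 ⟨1, mem_filter.2 ⟨mem_Icc.2 ⟨le_rfl, hR⟩, squarefree_one⟩, by simp⟩
  · intro T hT T' hT'
    have a : (T.filter fun q => ¬ q ∣ k * l) ∪ (T'.filter fun q => ¬ q ∣ m * l) ⊆ P :=
      union_subset (fun q hq => hmem k hk T hT q (mem_filter.1 hq).1 (mem_filter.1 hq).2)
        fun q hq => hmem m hm T' hT' q (mem_filter.1 hq).1 (mem_filter.1 hq).2
    rw [kp, prod_subset a fun p h h' => lf_one k m (mem_filter.1 h).2.1
      (fun e => h' (mem_union_left _ e)) fun e => h' (mem_union_right _ e), abs_prod]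
    exact prod_le_prod (fun _ _ => abs_nonneg _) fun p hp => lf_le hl (mem_filter.1 hp).2.1
      (mem_filter.1 hp).2.2 (fun h => (mem_filter.1 h).2) fun h => (mem_filter.1 h).2

theorem lam_eq (r n : ℕ) : lam r n = ∏ q ∈ r.primeFactors, s3_g q n :=
  prod_congr rfl fun _ _ => if_congr Int.natCast_dvd_natCast.symm rfl rfl

theorem main_pair {k m l R a b N : ℕ} {E δ : ℝ} (hp : l.Prime) (hl : l + 1 = k * m) (hk : 6 ∣ k)
    (hm : 6 ∣ m) (hR : l ≤ R) {G : ℤ → ℤ → ℝ} (hG : Per l G) (hb : ∀ x y, |G x y| ≤ 1)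
    (hs : ∀ x y, G x y ≠ 0 → ¬ (l : ℤ) ∣ x + k * y ∧ ¬ (l : ℤ) ∣ y + m * x) (δ0 : 0 ≤ δ)
    (hδ : δ ≤ mean l G) (E0 : 0 ≤ E)
    (ha : ∀ Q c, 1 ≤ Q → Q ≤ R ^ 3 → c < Q → |Eth Q c a (a + N)| ≤ E)
    (hc : ∀ Q c, 1 ≤ Q → Q ≤ R ^ 3 → c < Q → |Eth Q c b (b + N)| ≤ E) :
    (N : ℝ) ^ 2 * (δ / 10) - (R : ℝ) ^ 8 * (2 * N * E + E ^ 2) ≤
      ∑ x ∈ Ioc a (a + N), ∑ y ∈ Ioc b (b + N),
        th x * th y * (G x y * (Ls R (x + k * y) * Ls R (y + m * x))) := by
  have hR1 : 1 ≤ R := hp.one_le.trans hR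
  set s := (Icc 1 R).filter Squarefree with hs'
  have e : ∑ x ∈ Ioc a (a + N), ∑ y ∈ Ioc b (b + N),
      th x * th y * (G x y * (Ls R (x + k * y) * Ls R (y + m * x))) =
      ∑ r ∈ s, ∑ r' ∈ s, ∑ x ∈ Ioc a (a + N), ∑ y ∈ Ioc b (b + N),
        th x * th y * trm k m G r.primeFactors r'.primeFactors x y := by
    rw [← sum_product', ← sum_product', sum_congr rfl fun z _ => (sum_product' _ _ _).symm,
      sum_comm]
    refine sum_congr rfl fun z _ => ?_
    rw [Ls, Ls, sum_mul_sum, ← sum_product', mul_sum, mul_sum]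
    refine sum_congr rfl fun r _ => ?_
    rw [trm, lam_eq, lam_eq]
    push_cast
    rfl
  have h1 : ∀ r ∈ s, ∀ r' ∈ s, (N : ℝ) ^ 2 * (mean l G *
      ((∏ q ∈ r.primeFactors with q ∣ k * l, 1 / ((q : ℝ) - 1)) *
        ((∏ q ∈ r'.primeFactors with q ∣ m * l, 1 / ((q : ℝ) - 1)) *
        kp k m (r.primeFactors.filter fun q => ¬ q ∣ k * l)
          (r'.primeFactors.filter fun q => ¬ q ∣ m * l)))) - (R : ℝ) ^ 6 * (2 * N * E + E ^ 2) ≤
      ∑ x ∈ Ioc a (a + N), ∑ y ∈ Ioc b (b + N),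
        th x * th y * trm k m G r.primeFactors r'.primeFactors x y := by
    intro r hr r' hr'
    have p1 : ∀ q ∈ r.primeFactors, q.Prime := fun q => Nat.prime_of_mem_primeFactors
    have p2 : ∀ q ∈ r'.primeFactors, q.Prime := fun q => Nat.prime_of_mem_primeFactors
    have p3 : ∀ q ∈ r.primeFactors ∪ r'.primeFactors, 1 ≤ q := fun q hq =>
      ((mem_union.1 hq).elim (p1 q) (p2 q)).one_le
    rw [← mean_trm hp hG hs p1 p2]
    have q1 : 1 ≤ l * ∏ p ∈ (r.primeFactors ∪ r'.primeFactors).erase l, p :=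
      Nat.mul_pos hp.pos (prod_pos fun q hq => p3 q (mem_erase.1 hq).2)
    have q2 : l * ∏ p ∈ (r.primeFactors ∪ r'.primeFactors).erase l, p ≤ R ^ 3 := by
      have a1 := mem_Icc.1 (mem_filter.1 hr).1
      have a2 := mem_Icc.1 (mem_filter.1 hr').1
      have a3 : ∏ p ∈ (r.primeFactors ∪ r'.primeFactors).erase l, p ∣ r * r' := by
        rw [← Nat.primeFactors_mul (by omega) (by omega)]
        exact (prod_dvd_prod_of_subset _ _ _ (erase_subset _ _)).trans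
          (Nat.prod_primeFactors_dvd _)
      exact (Nat.mul_le_mul hR ((Nat.le_of_dvd (Nat.mul_pos a1.1 a2.1) a3).trans
        (Nat.mul_le_mul a1.2 a2.2))).trans_eq (by ring)
    refine le_trans (sub_le_sub_left ?_ _) (sw_pair q1 (fun x y x' y' h1 h2 => ?_) (fun x y => ?_)
      (fun c => ha _ c q1 q2) fun c => hc _ c q1 q2)
    · refine mul_le_mul_of_nonneg_right ?_ (by positivity)
      exact_mod_cast (Nat.pow_le_pow_left q2 2).trans_eq (by ring)
    · unfold trm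
      rw [per_mono hG (dvd_mul_right _ _) x y x' y' h1 h2]
      congr 2
      · exact prod_congr rfl fun q hq => g_per ((Int.natCast_dvd_natCast.2
          (dvd_mod (mem_union_left _ hq))).trans
            ((h1.add (h2.mul_left k)).trans (dvd_of_eq (by ring))))
      · exact prod_congr rfl fun q hq => g_per ((Int.natCast_dvd_natCast.2
          (dvd_mod (mem_union_right _ hq))).trans
            ((h2.add (h1.mul_left m)).trans (dvd_of_eq (by ring))))
    · rw [trm, abs_mul, abs_mul, abs_prod, abs_prod]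
      exact mul_le_one₀ (hb x y) (by positivity) (mul_le_one₀
        (prod_le_one (fun _ _ => abs_nonneg _) fun q hq => s3_abs_g (p1 q hq) _) (by positivity)
        (prod_le_one (fun _ _ => abs_nonneg _) fun q hq => s3_abs_g (p2 q hq) _))
  rw [e]
  refine le_trans ?_ (sum_le_sum fun r hr => sum_le_sum fun r' hr' => h1 r hr r' hr')
  simp only [sum_sub_distrib, ← mul_sum, sum_const, nsmul_eq_mul]
  have h2 := series hl hk hm hR1
  simp only [← mul_sum, ← hs'] at h2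
  have h3 : (#s : ℝ) ≤ R := by exact_mod_cast (card_filter_le _ _).trans (by simp)
  refine sub_le_sub (mul_le_mul_of_nonneg_left ?_ (by positivity)) ?_
  · nlinarith [mul_le_mul hδ h2 (by norm_num) (δ0.trans hδ)]
  · calc _ ≤ (R : ℝ) ^ 6 * (R * (R * (2 * N * E + E ^ 2))) := by gcongr
      _ = _ := by ring

theorem th_nonneg (n : ℕ) : 0 ≤ th n := by
  unfold th
  split_ifs
  · exact Real.log_natCast_nonneg n
  · exact le_rfl

theorem th_le {n X : ℕ} (h : n ≤ X) : th n ≤ Real.log X := by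
  unfold th
  split_ifs with hn
  · exact Real.log_le_log (by exact_mod_cast hn.pos) (by exact_mod_cast h)
  · exact Real.log_natCast_nonneg X

theorem Eth_sub (r k : ℕ) {lo hi : ℕ} (h : lo ≤ hi) :
    Eth r k lo hi = Eth r k 0 hi - Eth r k 0 lo := by
  unfold Eth cls
  simp only [sum_filter]
  rw [← sum_Ioc_consecutive _ (Nat.zero_le lo) h, Nat.cast_sub h]
  split_ifs
  · simp only [Nat.sub_zero]
    ring
  · ring

theorem core {N T R : ℕ} {E L δ : ℝ} (F : Finset (ℕ × ℕ)) (l : ℕ × ℕ → ℕ)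
    (G : ℕ × ℕ → ℤ → ℤ → ℝ)
    (hF : ∀ e ∈ F, e.1 ∈ Icc 1 T ∧ e.2 ∈ Icc 1 T ∧ 6 ∣ e.1 ∧ 6 ∣ e.2 ∧ (l e).Prime ∧
      l e + 1 = e.1 * e.2 ∧ Per (l e) (G e) ∧ (∀ x y, |G e x y| ≤ 1) ∧ δ ≤ mean (l e) (G e) ∧
      ∀ x y, G e x y ≠ 0 → ¬ (l e : ℤ) ∣ x + e.1 * y ∧ ¬ (l e : ℤ) ∣ y + e.2 * x)
    (hT : 1 ≤ T) (hR : T ^ 5 ≤ R) (hN : R ^ 4 ≤ N) (δ0 : 0 < δ) (E0 : 0 ≤ E)
    (hL : 1 + Real.log (6 * T * N : ℕ) ≤ L)
    (hE : ∀ Q c lo hi, 1 ≤ Q → Q ≤ R ^ 3 → c < Q → lo ≤ hi → hi ≤ 6 * T * N →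
      |Eth Q c lo hi| ≤ E)
    (h1 : (R : ℝ) ^ 8 * (2 * N * E + E ^ 2) ≤ δ / 40 * N ^ 2)
    (h2 : (T : ℝ) * (((6 * T * N : ℕ) + 1) * ((L + R) * (T ^ 4 * (E + 4 * R ^ 3)))) ≤ N ^ 2)
    (h3 : 44 * T * L ^ 44 ≤ (δ / 40) ^ 2 * #F) :
    ∃ e ∈ F, δ / 40 * N ^ 2 ≤ ∑ x ∈ Ioc N (N + N), ∑ y ∈ Ioc (2 * N) (2 * N + N),
      th x * th y * (G e x y * (th (x + e.1 * y) * th (y + e.2 * x))) := by
  set X := 6 * T * N with hX
  have R1 : 1 ≤ R := (Nat.one_le_pow _ _ hT).trans hR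
  have N1 : 1 ≤ N := (Nat.one_le_pow _ _ R1).trans hN
  have hTN : N ≤ T * N := Nat.le_mul_of_pos_left N hT
  have hX' : X = 6 * (T * N) := by rw [hX]; ring
  have l0 := Real.log_natCast_nonneg X
  have L1 : 1 ≤ L := by linarith
  have hL' : 1 + Real.log (R ^ 4 : ℕ) ≤ L := by
    have : Real.log (R ^ 4 : ℕ) ≤ Real.log X :=
      Real.log_le_log (by positivity) (Nat.cast_le.2 (by omega))
    linarith
  have t1 : ∀ n ≤ X, |th n| ≤ L := fun n hn => by
    rw [abs_of_nonneg (th_nonneg n)]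
    linarith [th_le hn]
  have t2 : ∀ n ≤ X, th n ^ 2 ≤ L ^ 2 := fun n hn => by
    rw [← sq_abs]
    exact pow_le_pow_left₀ (abs_nonneg _) (t1 n hn) 2
  have hB : ∀ n ≤ X, |DD R n| ≤ L + R := fun n hn =>
    (abs_sub _ _).trans (add_le_add (t1 n hn) (abs_Ls R n))
  have hE' : ∀ Q c lo hi, 1 ≤ Q → Q ≤ R → c < Q → lo ≤ hi → hi ≤ X →
      |cls (DD R) Q c lo hi| ≤ E + 4 * (R : ℝ) ^ 3 := fun Q c lo hi a1 a2 a3 a4 a5 =>
    (eh_eth a1 a2 a3 a4).trans (add_le_add_left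
      (hE Q c lo hi a1 (a2.trans (Nat.le_self_pow (by norm_num) R)) a3 a4 a5) _)
  have N0 : (0 : ℝ) < N := by exact_mod_cast N1
  have hm : ∀ {a b m x y : ℕ}, a ≤ 2 * N → b ≤ 2 * N → m ∈ Icc 1 T → x ∈ Ioc a (a + N) →
      y ∈ Ioc b (b + N) → x ≤ X ∧ y ≤ X ∧ y + m * x ≤ X := by
    intro a b m x y ha hb hm hx hy
    rw [mem_Ioc] at hx hy
    have : m * x ≤ T * (3 * N) := Nat.mul_le_mul (mem_Icc.1 hm).2 (by omega)
    rw [mul_left_comm] at this
    omega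
  have p2 : L ^ 2 ≤ L ^ 20 := pow_le_pow_right₀ L1 (by norm_num)
  have hD : ∀ {a b : ℕ}, a ≤ 2 * N → b ≤ 2 * N → ∀ m ∈ Icc 1 T,
      ∑ x ∈ Ioc a (a + N), ∑ y ∈ Ioc b (b + N), DD R (y + m * x) ^ 2 ≤ 10 * N ^ 2 * L ^ 20 := by
    intro a b ha hb m hm'
    refine (sum_le_sum (g := fun _ => 10 * N * L ^ 20) fun x hx => ?_).trans (by
      simp only [sum_const, Nat.card_Ioc, Nat.add_sub_cancel_left, nsmul_eq_mul]
      exact le_of_eq (by ring))
    refine (sum_le_sum (g := fun y => 2 * L ^ 20 + 2 * Ls R (y + m * x) ^ 2)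
      fun y hy => ?_).trans ?_
    · have := t2 _ (hm ha hb hm' hx hy).2.2
      unfold DD
      nlinarith [sq_nonneg (th (y + m * x) + Ls R (y + m * x))]
    · rw [sum_add_distrib, ← mul_sum, ← mul_sum]
      simp only [sum_const, Nat.card_Ioc, Nat.add_sub_cancel_left, nsmul_eq_mul]
      linarith [l2_Ls R1 hN hL' b (m * x)]
  have hXa : ∀ {a b : ℕ}, a ≤ 2 * N → b ≤ 2 * N → b + N + T * (a + N) ≤ X := fun {a b} ha hb => by
    have : T * (a + N) ≤ T * (3 * N) := Nat.mul_le_mul_left T (by omega)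
    rw [mul_left_comm] at this
    omega
  have hl : ∀ e ∈ F, l e ∈ Icc 1 (T ^ 2) := fun e he => by
    obtain ⟨a1, a2, -, -, a5, a6, -⟩ := hF e he
    have := Nat.mul_le_mul (mem_Icc.1 a1).2 (mem_Icc.1 a2).2
    exact mem_Icc.2 ⟨a5.one_le, by rw [sq]; omega⟩
  have d1 := disp F Prod.fst Prod.snd l (DD R) (fun k x y => th x * th y * th (x + k * y)) G
    (a := N) (b := 2 * N) (C₂ := 4 * N ^ 2 * L ^ 24)
    (fun e he => ⟨(hF e he).1, (hF e he).2.1, hl e he, (hF e he).2.2.2.2.2.2.1,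
      (hF e he).2.2.2.2.2.2.2.1⟩) (fun e _ e' _ a1 a2 => Prod.ext a1 a2)
    (hXa (by omega) le_rfl) hB (by positivity) hR hE' (fun k hk => by
      refine (sum_le_sum (g := fun _ => ∑ y ∈ Ioc (2 * N) (2 * N + N), L ^ 24) fun x hx =>
        sum_le_sum fun y hy => ?_).trans ?_
      · obtain ⟨a1, a2, a3⟩ := hm le_rfl (by omega) hk hy hx
        rw [mul_pow, mul_pow]
        calc _ ≤ L ^ 2 * L ^ 2 * L ^ 2 := mul_le_mul (mul_le_mul (t2 _ a2) (t2 _ a1) (sq_nonneg _)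
              (sq_nonneg _)) (t2 _ a3) (sq_nonneg _) (by positivity)
          _ = L ^ 6 := by ring
          _ ≤ _ := pow_le_pow_right₀ L1 (by norm_num)
      · simp only [sum_const, Nat.card_Ioc, Nat.add_sub_cancel_left, nsmul_eq_mul]
        nlinarith [mul_pos (mul_pos N0 N0) (pow_pos (show 0 < L by linarith) 24)])
    (hD (by omega) le_rfl) (by positivity)
  have d2 := disp F Prod.snd Prod.fst l (DD R) (fun m y x => th x * th y * Ls R (y + m * x))
    (fun e y x => G e x y) (a := 2 * N) (b := N) (C₂ := 4 * N ^ 2 * L ^ 24)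
    (fun e he => ⟨(hF e he).2.1, (hF e he).1, hl e he,
      fun y x y' x' a1 a2 => (hF e he).2.2.2.2.2.2.1 x y x' y' a2 a1,
      fun y x => (hF e he).2.2.2.2.2.2.2.1 x y⟩) (fun e _ e' _ a1 a2 => Prod.ext a2 a1)
    (hXa le_rfl (by omega)) hB (by positivity) hR hE' (fun m hm' => by
      rw [sum_comm]
      refine (sum_le_sum (g := fun _ => L ^ 4 * (4 * N * L ^ 20)) fun x hx => ?_).trans ?_
      · refine (sum_le_sum (g := fun y => L ^ 4 * Ls R (y + m * x) ^ 2) fun y hy => ?_).trans ?_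
        · obtain ⟨a1, a2, -⟩ := hm (by omega) le_rfl hm' hx hy
          rw [mul_pow, mul_pow]
          calc _ ≤ L ^ 2 * L ^ 2 * Ls R (y + m * x) ^ 2 := mul_le_mul_of_nonneg_right
                (mul_le_mul (t2 _ a1) (t2 _ a2) (sq_nonneg _) (sq_nonneg _)) (sq_nonneg _)
            _ = _ := by ring
        · rw [← mul_sum]
          exact mul_le_mul_of_nonneg_left (l2_Ls R1 hN hL' _ _) (by positivity)
      · simp only [sum_const, Nat.card_Ioc, Nat.add_sub_cancel_left, nsmul_eq_mul]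
        exact le_of_eq (by ring))
    (hD le_rfl (by omega)) (by positivity)
  have F0 : (0 : ℝ) < #F := by
    have : (0 : ℝ) < T := by exact_mod_cast hT
    have : 0 < 44 * T * L ^ 44 := by positivity
    by_contra h
    nlinarith [mul_le_mul_of_nonneg_left (not_lt.1 h) (sq_nonneg (δ / 40))]
  have fin : (T : ℝ) * (4 * N ^ 2 * L ^ 24) * (#F * (10 * N ^ 2 * L ^ 20 +
      T * (((X : ℝ) + 1) * ((L + R) * (T ^ 4 * (E + 4 * R ^ 3)))))) ≤ (δ / 40 * #F * N ^ 2) ^ 2 := by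
    have a1 : (N : ℝ) ^ 2 * 1 ≤ N ^ 2 * L ^ 20 := by gcongr; exact one_le_pow₀ L1
    calc _ ≤ (T : ℝ) * (4 * N ^ 2 * L ^ 24) * (#F * (11 * N ^ 2 * L ^ 20)) := by
          gcongr
          linarith
      _ = 44 * T * L ^ 44 * (#F * N ^ 4) := by ring
      _ ≤ (δ / 40) ^ 2 * #F * (#F * N ^ 4) := by gcongr
      _ = _ := by ring
  have b1 := (abs_le_of_sq_le_sq' (d1.trans fin) (by positivity)).1
  have b2 := (abs_le_of_sq_le_sq' (d2.trans fin) (by positivity)).1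
  have b3 := sum_le_sum fun e (he : e ∈ F) => by
    obtain ⟨-, -, a3, a4, a5, a6, a7, a8, a9, a10⟩ := hF e he
    exact main_pair (a := N) (b := 2 * N) (N := N) a5 a6 a3 a4
      ((mem_Icc.1 (hl e he)).2.trans ((Nat.pow_le_pow_right hT (by norm_num)).trans hR)) a7 a8 a10
      δ0.le a9 E0 (fun Q c c1 c2 c3 => hE Q c _ _ c1 c2 c3 (by omega) (by omega))
      fun Q c c1 c2 c3 => hE Q c _ _ c1 c2 c3 (by omega) (by omega)
  rw [sum_const, nsmul_eq_mul] at b3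
  rw [sum_congr rfl fun e _ => sum_comm] at b2
  have b4 := add_le_add (add_le_add b1 b2) b3
  rw [← sum_add_distrib, ← sum_add_distrib] at b4
  refine exists_le_of_sum_le (card_pos.1 (by exact_mod_cast F0))
    (le_trans ?_ (b4.trans_eq (sum_congr rfl fun e _ => ?_)))
  · rw [sum_const, nsmul_eq_mul]
    nlinarith [mul_le_mul_of_nonneg_left h1 F0.le]
  · rw [← sum_add_distrib, ← sum_add_distrib]
    refine sum_congr rfl fun x _ => ?_
    rw [← sum_add_distrib, ← sum_add_distrib]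
    refine sum_congr rfl fun y _ => ?_
    unfold DD
    ring

end Pool.Agent.Lib.KL3
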