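import Pool.Agent.Lib.KL3.Loc
import Pool.Agent.Lib.KL3.Main
import Pool.Agent.Lib.KL3.Fam

/-!
Negative Kloosterman sums to moduli with at most three prime factors.
-/

set_option autoImplicit false

open Finset Filter

namespace Pool.Agent.Lib.KL3

open Pool.Agent.Lib.RankZero Pool.Agent.Lib.MP_090305_nt

/-- The good quadruples of primes. -/
noncomputable def Quad (k m l N : ℕ) : Finset (ℕ × ℕ) :=
  (Ioc N (N + N) ×ˢ Ioc (2 * N) (2 * N + N)).filter fun z => z.1.Prime ∧ z.2.Prime ∧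
    (z.1 + k * z.2).Prime ∧ (z.2 + m * z.1).Prime ∧
    kk l (z.1 * (z.2 + m * z.1)) * kk l (z.1 * z.2) * kk l (z.2 * (z.1 + k * z.2)) < 0

theorem quad_count : ∃ b : ℕ, ∀ᶠ t : ℕ in atTop, ∃ k m l : ℕ, l.Prime ∧ l + 1 = k * m ∧ 6 ≤ k ∧
    6 ≤ m ∧ k ≤ t ^ b ∧ m ≤ t ^ b ∧ k * m ≤ 3 ^ t ∧
    ((3 ^ t : ℕ) : ℝ) ^ 2 ≤ 96000 * (4 * t) ^ 4 * #(Quad k m l (3 ^ t)) := by
  obtain ⟨h, hfam⟩ := fam
  obtain ⟨b, hb⟩ : ∃ b, b = 46 * h + 1 := ⟨_, rfl⟩
  obtain ⟨C, hC⟩ := siegel_walfisz (42 * b) (15 * b)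
  have t1 : Tendsto (fun t : ℕ => t ^ 46) atTop atTop := tendsto_pow_atTop (by norm_num)
  have t2 := (tendsto_pow_const_div_const_pow_of_one_lt (b * 26) (r := 3) (by norm_num)).eventually
    (gt_mem_nhds (show (0 : ℝ) < 1 / 280 by norm_num))
  refine ⟨b, ?_⟩
  filter_upwards [t1.eventually hfam, t2, tendsto_natCast_atTop_atTop.eventually_ge_atTop
      (6 + 3456000 * |C| + 264 * 4 ^ 44 * (h + 5) * 46 * 96000 ^ 2 : ℝ)] with t a1 a2 a4
  have C0 := abs_nonneg C
  have c1 : (0 : ℝ) ≤ 264 * 4 ^ 44 * (h + 5) * 46 * 96000 ^ 2 := by positivity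
  have t6 : (6 : ℝ) ≤ t := by linarith
  have t6' : 6 ≤ t := by exact_mod_cast t6
  set T := 6 * (t ^ 46) ^ h with hT
  set N := 3 ^ t with hN
  set P : ℝ := (t : ℝ) ^ b with hP
  have T1 : 1 ≤ T := by rw [hT]; exact Nat.mul_pos (by norm_num) (by positivity)
  have T1' : (1 : ℝ) ≤ T := by exact_mod_cast T1
  have hTP : (T : ℝ) ≤ P := by
    rw [hT, hP, hb, ← pow_mul, pow_succ']
    push_cast
    gcongr
  have htP : (t : ℝ) ≤ P := le_self_pow₀ (by linarith) (by omega)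
  have P1 : 1 ≤ P := by linarith
  have N0 : (0 : ℝ) < N := by positivity
  have hPN : 280 * P ^ 26 ≤ N := by
    rw [div_lt_iff₀ (by positivity), pow_mul] at a2
    rw [hN]
    push_cast
    linarith
  have hpw : ∀ j ≤ 26, 280 * T ^ j ≤ N := fun j hj => by
    have : (280 : ℝ) * T ^ j ≤ N := le_trans (by
      gcongr
      exact (pow_le_pow_left₀ (by positivity) hTP j).trans (pow_le_pow_right₀ P1 hj)) hPN
    exact_mod_cast this
  have hT1 := hpw 1 (by norm_num)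
  have hT2 := hpw 2 (by norm_num)
  rw [pow_one] at hT1
  have hNX : N ≤ 6 * T * N := Nat.le_mul_of_pos_left N (by omega)
  have l3 : 1 ≤ Real.log 3 := by
    rw [Real.le_log_iff_exp_le (by norm_num)]
    linarith [Real.exp_one_lt_d9]
  have l4 : Real.log 3 ≤ 2 := (Real.log_le_sub_one_of_pos (by norm_num)).trans (by norm_num)
  have l5 : Real.log N = t * Real.log 3 := by rw [hN, Nat.cast_pow, Real.log_pow, Nat.cast_ofNat]
  have l6 : (t : ℝ) ≤ Real.log (6 * T * N : ℕ) :=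
    le_trans (by nlinarith) (Real.log_le_log N0 (Nat.cast_le.2 hNX))
  have l7 : Real.log (6 * T * N : ℕ) ≤ Real.log N + Real.log N := by
    rw [← Real.log_mul N0.ne' N0.ne']
    refine Real.log_le_log (N0.trans_le (Nat.cast_le.2 hNX)) ?_
    exact_mod_cast Nat.mul_le_mul_right N (show 6 * T ≤ N by omega)
  have l8 : Real.log 3 ≤ 5 / 4 := by
    rw [Real.log_le_iff_le_exp (by norm_num), show (5 / 4 : ℝ) = 1 + 1 / 4 by norm_num,
      Real.exp_add]
    nlinarith [Real.exp_one_gt_d9, Real.add_one_le_exp (1 / 4 : ℝ)]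
  set E : ℝ := 12 * |C| * N / P ^ 41 with hE
  have E0 : 0 ≤ E := by positivity
  have hEN : E ≤ N := by
    rw [hE, div_le_iff₀ (by positivity)]
    nlinarith [le_self_pow₀ P1 (show 41 ≠ 0 by norm_num)]
  have hSW : ∀ Q c M, 1 ≤ Q → Q ≤ (T ^ 5) ^ 3 → c < Q → M ≤ 6 * T * N →
      |Eth Q c 0 M| ≤ E / 2 := by
    intro Q c M h1 h2 h3 h4
    have h5 : 2 ≤ 6 * T * N := by omega
    refine (hC _ Q c M h5 h1 ?_ h4 h3).trans ?_
    · calc (Q : ℝ) ≤ (T : ℝ) ^ 15 := by exact_mod_cast h2.trans_eq (by ring)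
        _ ≤ P ^ 15 := by gcongr
        _ = (t : ℝ) ^ (15 * b) := by rw [hP, ← pow_mul, mul_comm]
        _ ≤ _ := by gcongr
    · calc _ ≤ |C| * (6 * T * N : ℕ) / (t : ℝ) ^ (42 * b) := by
            gcongr
            exact le_abs_self C
        _ = |C| * (6 * T * N) / P ^ 42 := by
            rw [hP, ← pow_mul, mul_comm b]
            push_cast
            rfl
        _ ≤ |C| * (6 * P * N) / P ^ 42 := by gcongr
        _ = _ := by
            rw [hE]
            field_simp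
            ring
  have hmem : ∀ e ∈ Fam T, (1 ≤ e.1 ∧ e.1 ≤ T) ∧ (1 ≤ e.2 ∧ e.2 ≤ T) ∧ 6 ∣ e.1 ∧ 6 ∣ e.2 ∧
      (e.1 * e.2 - 1).Prime := fun e he => by
    simpa only [Fam, mem_filter, mem_product, mem_Icc, and_assoc] using he
  have key := core (N := N) (T := T) (R := T ^ 5) (E := E) (L := 4 * t) (δ := 1 / 2400) (Fam T)
    (fun e => e.1 * e.2 - 1) (fun e x y => gl (e.1 * e.2 - 1) e.1 e.2 x y) (fun e he => by
      obtain ⟨b1, b2, b3, b4, b5⟩ := hmem e he
      have := Fact.mk b5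
      have b6 : e.1 * e.2 - 1 + 1 = e.1 * e.2 := Nat.sub_add_cancel (Nat.mul_pos b1.1 b2.1)
      have b7 : 36 ∣ e.1 * e.2 := mul_dvd_mul b3 b4
      refine ⟨mem_Icc.2 b1, mem_Icc.2 b2, b3, b4, b5, b6, fun x y x' y' h1 h2 => ?_,
        fun x y => ?_, ?_, fun x y hxy => ?_⟩
      · beta_reduce
        rw [(ZMod.intCast_eq_intCast_iff_dvd_sub x x' _).2 h1,
          (ZMod.intCast_eq_intCast_iff_dvd_sub y y' _).2 h2]
      · unfold gl
        split_ifs <;> simp
      · rw [mean_prime]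
        refine good_density (by omega) (by omega) ?_
        have b8 := congrArg (Nat.cast : ℕ → ZMod (e.1 * e.2 - 1)) b6
        rw [Nat.cast_add, CharP.cast_eq_zero, zero_add, Nat.cast_one, Nat.cast_mul] at b8
        exact b8.symm
      · unfold gl at hxy
        have b8 := (ite_ne_right_iff.1 hxy).1
        simp only [← ZMod.intCast_zmod_eq_zero_iff_dvd]
        push_cast
        exact b8.2)
    T1 le_rfl (by
      have := hpw (5 * 4) (by norm_num)
      rw [← pow_mul]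
      omega) (by norm_num) E0
    (by nlinarith) (fun Q c lo hi h1 h2 h3 h4 h5 => by
      rw [Eth_sub Q c h4]
      exact (abs_sub _ _).trans (by
        linarith [hSW Q c hi h1 h2 h3 h5, hSW Q c lo h1 h2 h3 (h4.trans h5)]))
    (by
      calc _ ≤ (P ^ 5) ^ 8 * (2 * N * E + N * E) := by
            push_cast
            gcongr
            nlinarith
        _ = 36 * |C| / P * N ^ 2 := by
            rw [hE]
            field_simp
            ring
        _ ≤ _ := by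
            refine mul_le_mul_of_nonneg_right ?_ (sq_nonneg _)
            rw [div_le_iff₀ (by positivity)]
            linarith)
    (by
      have p5 : P ≤ P ^ 5 := le_self_pow₀ P1 (by norm_num)
      have p6 : P ≤ P ^ 30 := le_self_pow₀ P1 (by norm_num)
      have N1 : (1 : ℝ) ≤ N := by nlinarith [one_le_pow₀ (n := 26) P1]
      calc _ ≤ P * ((6 * P * N + P * N) * ((4 * P ^ 5 + P ^ 5) *
            (P ^ 4 * (E + 4 * (P ^ 5) ^ 3)))) := by
            push_cast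
            gcongr
            · nlinarith
            · linarith
        _ = 420 * |C| / P ^ 30 * N ^ 2 + 280 * P ^ 26 * N / 2 := by
            rw [hE]
            field_simp
            ring
        _ ≤ 1 / 2 * N ^ 2 + N * N / 2 := by
            refine add_le_add (mul_le_mul_of_nonneg_right ?_ (sq_nonneg _)) (by gcongr)
            rw [div_le_iff₀ (by positivity)]
            linarith
        _ = _ := by ring)
    (by
      have l9 : Real.log (t ^ 46 : ℕ) ≤ 46 * t := by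
        rw [Nat.cast_pow, Real.log_pow]
        push_cast
        linarith [Real.log_le_sub_one_of_pos (show (0 : ℝ) < t by linarith)]
      have a5 := a1.trans (mul_le_mul_of_nonneg_right (mul_le_mul_of_nonneg_left l9
        (by positivity)) (by positivity))
      refine le_of_mul_le_mul_left ?_ (show (0 : ℝ) < (h + 5) * (46 * t) * 96000 ^ 2 by positivity)
      calc _ = 264 * 4 ^ 44 * (h + 5) * 46 * 96000 ^ 2 * (t ^ 45 * ((t : ℝ) ^ 46) ^ h) := by
            rw [hT]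
            push_cast
            ring
        _ ≤ t * (t ^ 45 * ((t : ℝ) ^ 46) ^ h) := by
            gcongr
            linarith
        _ = ((t ^ 46 : ℕ) : ℝ) ^ (h + 1) := by
            push_cast
            ring
        _ ≤ _ := a5
        _ = _ := by ring)
  obtain ⟨e, he, h1⟩ := key
  obtain ⟨b1, b2, b3, b4, b5⟩ := hmem e he
  have b6 := Nat.mul_le_mul b1.2 b2.2
  have b7 : T ≤ t ^ b := by
    rw [hP] at hTP
    exact_mod_cast hTP
  rw [sq] at hT2
  refine ⟨e.1, e.2, e.1 * e.2 - 1, b5, Nat.sub_add_cancel (Nat.mul_pos b1.1 b2.1),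
    Nat.le_of_dvd b1.1 b3, Nat.le_of_dvd b2.1 b4, b1.2.trans b7, b2.2.trans b7, by omega, ?_⟩
  have h2 : ∑ x ∈ Ioc N (N + N), ∑ y ∈ Ioc (2 * N) (2 * N + N), th x * th y *
      (gl (e.1 * e.2 - 1) e.1 e.2 (x : ℤ) (y : ℤ) * (th (x + e.1 * y) * th (y + e.2 * x))) ≤
      (4 * t) ^ 4 * #(Quad e.1 e.2 (e.1 * e.2 - 1) N) := by
    rw [← sum_product', Quad, card_filter, Nat.cast_sum, mul_sum]
    refine sum_le_sum fun z hz => ?_
    obtain ⟨x, y⟩ := z
    simp only [mem_product, mem_Ioc] at hz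
    dsimp only
    have c2 : e.1 * y ≤ T * (3 * N) := Nat.mul_le_mul b1.2 (by omega)
    have c3 : e.2 * x ≤ T * (3 * N) := Nat.mul_le_mul b2.2 (by omega)
    have c4 : N ≤ T * N := Nat.le_mul_of_pos_left N T1
    rw [mul_left_comm] at c2 c3
    have c5 : ∀ n ≤ 6 * (T * N), th n ≤ 4 * t := fun n hn =>
      (th_le (hn.trans_eq (mul_assoc 6 T N).symm)).trans (by nlinarith)
    have hp : ∀ n, th n ≠ 0 → n.Prime := fun n hn => (ite_ne_right_iff.1 hn).1
    split_ifs with c6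
    · have c7 : gl (e.1 * e.2 - 1) e.1 e.2 (x : ℤ) (y : ℤ) ≤ 1 := by
        unfold gl
        split_ifs <;> norm_num
      have c8 : 0 ≤ gl (e.1 * e.2 - 1) e.1 e.2 (x : ℤ) (y : ℤ) := by
        unfold gl
        split_ifs <;> norm_num
      have d1 := th_nonneg x
      have d2 := th_nonneg y
      have d3 := th_nonneg (x + e.1 * y)
      have d4 := th_nonneg (y + e.2 * x)
      calc _ ≤ 4 * (t : ℝ) * (4 * t) * (1 * (4 * t * (4 * t))) := by
            gcongr
            exacts [c5 _ (by omega), c5 _ (by omega), c5 _ (by omega), c5 _ (by omega)]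
        _ = _ := by
            push_cast
            ring
    · rw [Nat.cast_zero, mul_zero]
      refine le_of_eq (by_contra fun h3 => c6 ?_)
      simp only [← ne_eq, mul_ne_zero_iff] at h3
      obtain ⟨⟨p1, p2⟩, p3, p4, p5⟩ := h3
      refine ⟨hp _ p1, hp _ p2, hp _ p4, hp _ p5, ?_⟩
      unfold gl at p3
      have b8 := (ite_ne_right_iff.1 p3).1.1
      simp only [kk_kr]
      push_cast at b8 ⊢
      exact b8
  linarith

theorem cyc {k m l x y u v : ℕ} (hl : l.Prime) (hx : x.Prime) (hy : y.Prime) (hu : u.Prime)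
    (hv : v.Prime) (e : l + 1 = k * m) (eu : u = x + k * y) (ev : v = y + m * x) (h1 : l ≠ x)
    (h2 : l ≠ y) (h3 : l ≠ u) (h4 : l ≠ v) (h5 : x ≠ y) (h6 : x ≠ v) (h7 : y ≠ u) (h8 : u ≠ v)
    (h : kk l (x * v) * kk l (x * y) * kk l (y * u) < 0) :
    kk (l * (x * v)) 1 * kk (l * (x * y)) 1 * kk (l * (y * u)) 1 * kk (u * v) 1 < 0 := by
  have tri : ∀ {p q : ℕ}, p.Prime → q.Prime → l ≠ p → l ≠ q → p ≠ q →
      kk (l * (p * q)) 1 = kk l (p * q) * (kk p (l * q) * kk q (l * p)) := by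
    intro p q hp hq a1 a2 a3
    have c : l.Coprime (p * q) :=
      ((Nat.coprime_primes hl hp).2 a1).mul_right ((Nat.coprime_primes hl hq).2 a2)
    rw [kk_mul l (p * q) 1 hl.ne_zero (mul_ne_zero hp.ne_zero hq.ne_zero) c
      (Nat.coprime_one_left _), one_mul, one_mul,
      kk_mul p q l hp.ne_zero hq.ne_zero ((Nat.coprime_primes hp hq).2 a3) c]
  have e1 : kk x (l * v) = kk x (l * y) := kk_congr (by
    rw [ev, mul_add, ← mul_assoc]
    simp [Nat.ModEq])
  have e2 : kk y (l * u) = kk y (l * x) := kk_congr (by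
    rw [eu, mul_add, ← mul_assoc]
    simp [Nat.ModEq])
  have e3 : kk u (l * y) = kk u v := kk_congr_neg hu ⟨m, by
    rw [eu, ev]
    linear_combination y * e⟩
  have e4 : kk v (l * x) = kk v u := kk_congr_neg hv ⟨k, by
    rw [eu, ev]
    linear_combination x * e⟩
  rw [tri hx hv h1 h4 h6, tri hx hy h1 h2 h5, tri hy hu h2 h3 h7,
    kk_mul u v 1 hu.ne_zero hv.ne_zero ((Nat.coprime_primes hu hv).2 h8) (Nat.coprime_one_left _),
    one_mul, one_mul, e1, e2, e3, e4]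
  have h9 : 0 < (kk x (l * y) * kk y (l * x) * kk u v * kk v u) ^ 2 :=
    sq_pos_of_ne_zero (mul_ne_zero (mul_ne_zero (mul_ne_zero (kk_ne_zero hx _) (kk_ne_zero hy _))
      (kk_ne_zero hu _)) (kk_ne_zero hv _))
  nlinarith [mul_neg_of_neg_of_pos h h9]

theorem sq2 {p q : ℕ} (hp : p.Prime) (hq : q.Prime) (h : p ≠ q) :
    Squarefree (p * q) ∧ (p * q).primeFactors.card = 2 := by
  have := sqf_prod {p, q} (by simp [hp, hq])
  rwa [prod_pair h, card_pair h] at this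

theorem sign4 {s a b c d : ℝ} (hs : s = 1 ∨ s = -1) (h : a * b * c * d < 0) :
    0 < s * a ∨ 0 < s * b ∨ 0 < s * c ∨ 0 < s * d := by
  by_contra hn
  simp only [not_or, not_lt] at hn
  obtain ⟨h1, h2, h3, h4⟩ := hn
  have := mul_nonneg (mul_nonneg_of_nonpos_of_nonpos h1 h2) (mul_nonneg_of_nonpos_of_nonpos h3 h4)
  rcases hs with rfl | rfl <;> nlinarith

/-- The moduli up to `X` with at most three prime factors and sign `s`. -/
noncomputable def Mods (s : ℝ) (X : ℕ) : Finset ℕ :=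
  (Icc 1 X).filter fun c => Squarefree c ∧ c.primeFactors.card ≤ 3 ∧ 0 < s * kk c 1

theorem quad_le {k m l N P X : ℕ} {s : ℝ} (hs : s = 1 ∨ s = -1) (hl : l.Prime) (e : l + 1 = k * m)
    (a1 : 6 ≤ k) (a2 : 6 ≤ m) (a3 : k ≤ P) (a4 : m ≤ P) (a5 : k * m ≤ N)
    (hX : 36 * P ^ 4 * N ^ 2 ≤ X) : #(Quad k m l N) ≤ 36 * #(Mods s X) := by
  have a6 : k * 6 ≤ k * m := Nat.mul_le_mul_left k a2
  refine (card_le_card (t := (Mods s X).biUnion fun c => (Quad k m l N).filter fun z =>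
    (z.1 ∣ c ∧ z.2 + m * z.1 ∣ c) ∨ (z.1 ∣ c ∧ z.2 ∣ c) ∨ (z.2 ∣ c ∧ z.1 + k * z.2 ∣ c) ∨
      (z.1 + k * z.2 ∣ c ∧ z.2 + m * z.1 ∣ c)) fun z hz => ?_).trans (card_biUnion_le.trans ?_)
  · obtain ⟨x, y⟩ := z
    have hz' := hz
    simp only [Quad, mem_filter, mem_product, mem_Ioc] at hz'
    obtain ⟨⟨i1, i2⟩, hx, hy, hu, hv, h⟩ := hz'
    have b1 := Nat.mul_le_mul_right y a1
    have b2 := Nat.mul_le_mul_right x a2
    have b3 : x + k * y ≠ y + m * x := by
      intro h1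
      obtain ⟨k, rfl⟩ := Nat.exists_eq_add_of_le' (show 1 ≤ k by omega)
      obtain ⟨m, rfl⟩ := Nat.exists_eq_add_of_le' (show 1 ≤ m by omega)
      have h2 : x ∣ k * y := ⟨m, by linear_combination h1⟩
      rcases hx.dvd_mul.1 h2 with h3 | h3
      · have := Nat.le_of_dvd (by omega) h3
        omega
      · have := (Nat.prime_dvd_prime_iff_eq hx hy).1 h3
        omega
    have h' := cyc hl hx hy hu hv e rfl rfl (by omega) (by omega) (by omega) (by omega) (by omega)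
      (by omega) (by omega) b3 h
    have g1 := good3 hl hx hv (by omega) (by omega)
    have g2 := good3 hl hx hy (by omega) (by omega)
    have g3 := good3 hl hy hu (by omega) (by omega)
    have g4 := sq2 hu hv b3
    have c2 : k * y ≤ P * (3 * N) := Nat.mul_le_mul a3 (by omega)
    have c3 : m * x ≤ P * (3 * N) := Nat.mul_le_mul a4 (by omega)
    have c4 : N ≤ P * N := Nat.le_mul_of_pos_left N (by omega)
    have c5 : k * m ≤ P * P := Nat.mul_le_mul a3 a4
    rw [mul_left_comm] at c2 c3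
    have big : ∀ {a p q : ℕ}, a ≤ P * P → p ≤ 6 * (P * N) → q ≤ 6 * (P * N) →
        Squarefree (a * (p * q)) → a * (p * q) ∈ Icc 1 X := fun {a p q} c1 c2 c3 c4 =>
      mem_Icc.2 ⟨Nat.pos_of_ne_zero c4.ne_zero, le_trans ((Nat.mul_le_mul c1
        (Nat.mul_le_mul c2 c3)).trans_eq (by ring)) hX⟩
    have d1 : ∀ a p q : ℕ, p ∣ a * (p * q) ∧ q ∣ a * (p * q) := fun a p q =>
      ⟨(dvd_mul_right p q).mul_left a, (dvd_mul_left q p).mul_left a⟩
    rcases sign4 hs h' with h1 | h1 | h1 | h1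
    · exact mem_biUnion.2 ⟨_, mem_filter.2 ⟨big (by omega) (by omega) (by omega) g1.1, g1.1,
        g1.2.le, h1⟩, mem_filter.2 ⟨hz, Or.inl (d1 _ _ _)⟩⟩
    · exact mem_biUnion.2 ⟨_, mem_filter.2 ⟨big (by omega) (by omega) (by omega) g2.1, g2.1,
        g2.2.le, h1⟩, mem_filter.2 ⟨hz, Or.inr (Or.inl (d1 _ _ _))⟩⟩
    · exact mem_biUnion.2 ⟨_, mem_filter.2 ⟨big (by omega) (by omega) (by omega) g3.1, g3.1,
        g3.2.le, h1⟩, mem_filter.2 ⟨hz, Or.inr (Or.inr (Or.inl (d1 _ _ _)))⟩⟩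
    · have h2 := big (a := 1) (p := x + k * y) (q := y + m * x) (by omega) (by omega) (by omega)
        (by rw [one_mul]; exact g4.1)
      rw [one_mul] at h2
      exact mem_biUnion.2 ⟨_, mem_filter.2 ⟨h2, g4.1, by omega, h1⟩, mem_filter.2
        ⟨hz, Or.inr (Or.inr (Or.inr ⟨dvd_mul_right _ _, dvd_mul_left _ _⟩))⟩⟩
  · rw [mul_comm]
    refine sum_le_card_nsmul _ _ _ fun c hc => ?_
    obtain ⟨-, h1, h2, -⟩ := mem_filter.1 hc
    have key : ∀ f g : ℕ × ℕ → ℕ, (∀ z ∈ Quad k m l N, (f z).Prime ∧ (g z).Prime) →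
        (∀ z z', f z = f z' → g z = g z' → z = z') →
        #((Quad k m l N).filter fun z => f z ∣ c ∧ g z ∣ c) ≤ 9 := fun f g h3 h4 => by
      refine (card_le_card_of_injOn (t := c.primeFactors ×ˢ c.primeFactors) (fun z => (f z, g z))
        (fun z hz => ?_) fun z _ z' _ h => h4 z z' (Prod.mk.inj h).1 (Prod.mk.inj h).2).trans ?_
      · obtain ⟨h5, h6⟩ := mem_filter.1 hz
        exact mem_product.2 ⟨Nat.mem_primeFactors.2 ⟨(h3 z h5).1, h6.1, h1.ne_zero⟩,
          Nat.mem_primeFactors.2 ⟨(h3 z h5).2, h6.2, h1.ne_zero⟩⟩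
      · rw [card_product]
        exact Nat.mul_le_mul h2 h2
    have k1 := key (fun z => z.1) (fun z => z.2 + m * z.1)
      (fun z hz => ⟨(mem_filter.1 hz).2.1, (mem_filter.1 hz).2.2.2.2.1⟩) fun z z' e1 e2 => by
        rw [e1] at e2
        exact Prod.ext e1 (Nat.add_right_cancel e2)
    have k2 := key (fun z => z.1) (fun z => z.2)
      (fun z hz => ⟨(mem_filter.1 hz).2.1, (mem_filter.1 hz).2.2.1⟩) fun z z' e1 e2 => Prod.ext e1 e2
    have k3 := key (fun z => z.2) (fun z => z.1 + k * z.2)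
      (fun z hz => ⟨(mem_filter.1 hz).2.2.1, (mem_filter.1 hz).2.2.2.1⟩) fun z z' e1 e2 => by
        rw [e1] at e2
        exact Prod.ext (Nat.add_right_cancel e2) e1
    have k4 := key (fun z => z.1 + k * z.2) (fun z => z.2 + m * z.1)
      (fun z hz => ⟨(mem_filter.1 hz).2.2.2.1, (mem_filter.1 hz).2.2.2.2.1⟩) fun z z' e1 e2 => by
        have e3 : z.1 = z'.1 := by
          refine Nat.eq_of_mul_eq_mul_left hl.pos ?_
          zify at e e1 e2 ⊢
          linear_combination k * e2 - e1 + ((z.1 : ℤ) - z'.1) * e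
        rw [e3] at e2
        exact Prod.ext e3 (Nat.add_right_cancel e2)
    rw [filter_or, filter_or, filter_or]
    exact (card_union_le _ _).trans (Nat.add_le_add k1 ((card_union_le _ _).trans
      (Nat.add_le_add k2 ((card_union_le _ _).trans (Nat.add_le_add k3 k4)))))

theorem many_mods : ∃ A X₀ : ℕ, ∀ X ≥ X₀, ∀ s : ℝ, s = 1 ∨ s = -1 →
    (X : ℝ) / Real.log X ^ A ≤ #(Mods s X) := by
  obtain ⟨b, h⟩ := quad_count
  obtain ⟨t₀, h⟩ := eventually_atTop.1 (h.and (eventually_ge_atTop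
    (324 * 2 ^ (4 * b) * (96000 * 4 ^ 4 * 36))))
  refine ⟨4 * b + 5, 36 * (t₀ ^ b) ^ 4 * (3 ^ t₀) ^ 2, fun X hX s hs => ?_⟩
  have hex : ∃ t, X < 36 * ((t₀ + t + 1) ^ b) ^ 4 * (3 ^ (t₀ + t + 1)) ^ 2 := by
    refine ⟨X, ?_⟩
    have h1 : t₀ + X + 1 < 3 ^ (t₀ + X + 1) := Nat.lt_pow_self (by norm_num)
    have h2 : 1 ≤ ((t₀ + X + 1) ^ b) ^ 4 := Nat.one_le_pow _ _ (Nat.one_le_pow _ _ (by omega))
    nlinarith
  have h1 := Nat.find_spec hex
  have h2 : 36 * ((t₀ + Nat.find hex) ^ b) ^ 4 * (3 ^ (t₀ + Nat.find hex)) ^ 2 ≤ X := by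
    rcases Nat.eq_zero_or_pos (Nat.find hex) with h0 | h0
    · rw [h0]
      exact hX
    · have := Nat.find_min hex (Nat.sub_lt h0 one_pos)
      rw [show t₀ + (Nat.find hex - 1) + 1 = t₀ + Nat.find hex by omega] at this
      exact not_lt.1 this
  obtain ⟨⟨k, m, l, a1, a2, a3, a4, a5, a6, a7, a8⟩, a9⟩ := h _ (Nat.le_add_right t₀ (Nat.find hex))
  generalize t₀ + Nat.find hex = t at *
  have t1 : 1 ≤ t := le_trans (Nat.succ_le_of_lt (by positivity)) a9
  have t1' : (1 : ℝ) ≤ t := by exact_mod_cast t1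
  have b1 : (#(Quad k m l (3 ^ t)) : ℝ) ≤ 36 * #(Mods s X) := by
    exact_mod_cast quad_le hs a1 a2 a3 a4 a5 a6 a7 h2
  have b2 : (t : ℝ) ≤ Real.log X := by
    have c1 : 3 ^ t ≤ X := by
      have c2 : 1 ≤ (t ^ b) ^ 4 := Nat.one_le_pow _ _ (Nat.one_le_pow _ _ t1)
      have c3 : 1 ≤ 3 ^ t := Nat.one_le_pow _ _ (by norm_num)
      nlinarith
    have c2 : 1 ≤ Real.log 3 := by
      rw [Real.le_log_iff_exp_le (by norm_num)]
      linarith [Real.exp_one_lt_d9]
    have c3 := Real.log_le_log (by positivity) ((Nat.cast_le (α := ℝ)).2 c1)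
    rw [Nat.cast_pow, Real.log_pow, Nat.cast_ofNat] at c3
    nlinarith
  have b3 : (X : ℝ) ≤ 36 * (((t : ℝ) + 1) ^ b) ^ 4 * (3 ^ (t + 1)) ^ 2 := by exact_mod_cast h1.le
  have b4 : (324 * 2 ^ (4 * b) * (96000 * 4 ^ 4 * 36) : ℝ) ≤ t := by exact_mod_cast a9
  rw [div_le_iff₀ (pow_pos (by linarith) _)]
  push_cast at a8
  calc (X : ℝ) ≤ 36 * ((2 * (t : ℝ)) ^ b) ^ 4 * (3 ^ (t + 1)) ^ 2 := b3.trans (by
        gcongr
        linarith)
    _ = 324 * 2 ^ (4 * b) * (t : ℝ) ^ (4 * b) * (3 ^ t) ^ 2 := by ring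
    _ ≤ 324 * 2 ^ (4 * b) * (t : ℝ) ^ (4 * b) * (96000 * (4 * t) ^ 4 * (36 * #(Mods s X))) := by
        gcongr
        exact a8.trans (by gcongr)
    _ = 324 * 2 ^ (4 * b) * (96000 * 4 ^ 4 * 36) * (#(Mods s X) * (t : ℝ) ^ (4 * b + 4)) := by ring
    _ ≤ t * (#(Mods s X) * (t : ℝ) ^ (4 * b + 4)) := by gcongr
    _ = #(Mods s X) * (t : ℝ) ^ (4 * b + 5) := by ring
    _ ≤ _ := by gcongr

end Pool.Agent.Lib.KL3
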