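import Pool.Agent.Lib.KL3.Fin

/-!
The same count, keeping track of the size of the third prime factor.
-/

set_option autoImplicit false

open Finset Filter

namespace Pool.Agent.Lib.KL3

open Pool.Agent.Lib.RankZero Pool.Agent.Lib.MP_090305_nt

/-- The moduli up to `X` of sign `s` with at most three prime factors, at most two above `B`. -/
noncomputable def Mods2 (s B : ℝ) (X : ℕ) : Finset ℕ :=
  (Icc 1 X).filter fun c => Squarefree c ∧ c.primeFactors.card ≤ 3 ∧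
    (c.primeFactors.filter fun p : ℕ => B < p).card ≤ 2 ∧ 0 < s * kk c 1

theorem two_big {a p q : ℕ} {B : ℝ} (hp : p.Prime) (hq : q.Prime) (ha : 0 < a) (hB : (a : ℝ) ≤ B) :
    ((a * (p * q)).primeFactors.filter fun r : ℕ => B < r).card ≤ 2 := by
  refine (card_le_card (t := {p, q}) fun r hr => ?_).trans card_le_two
  obtain ⟨h1, h2⟩ := mem_filter.1 hr
  have h3 := Nat.prime_of_mem_primeFactors h1
  rcases h3.dvd_mul.1 (Nat.dvd_of_mem_primeFactors h1) with h | h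
  · have : (r : ℝ) ≤ a := by exact_mod_cast Nat.le_of_dvd ha h
    linarith
  · rcases h3.dvd_mul.1 h with h | h
    · simp [(Nat.prime_dvd_prime_iff_eq h3 hp).1 h]
    · simp [(Nat.prime_dvd_prime_iff_eq h3 hq).1 h]

theorem quad_le2 {k m l N P X : ℕ} {s B : ℝ} (hs : s = 1 ∨ s = -1) (hl : l.Prime) (e : l + 1 = k * m)
    (a1 : 6 ≤ k) (a2 : 6 ≤ m) (a3 : k ≤ P) (a4 : m ≤ P) (a5 : k * m ≤ N)
    (hX : 36 * P ^ 4 * N ^ 2 ≤ X) (hB : ((P * P : ℕ) : ℝ) ≤ B) :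
    #(Quad k m l N) ≤ 36 * #(Mods2 s B X) := by
  have a6 : k * 6 ≤ k * m := Nat.mul_le_mul_left k a2
  refine (card_le_card (t := (Mods2 s B X).biUnion fun c => (Quad k m l N).filter fun z =>
    (z.1 ∣ c ∧ z.2 + m * z.1 ∣ c) ∨ (z.1 ∣ c ∧ z.2 ∣ c) ∨ (z.2 ∣ c ∧ z.1 + k * z.2 ∣ c) ∨
      (z.1 + k * z.2 ∣ c ∧ z.2 + m * z.1 ∣ c)) fun z hz => ?_).trans (card_biUnion_le.trans ?_)
  · obtain ⟨x, y⟩ := z
    have hz' := hz
    simp only [Quad, mem_filter, mem_product, mem_Ioc] at hz'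
    obtain ⟨⟨i1, i2⟩, hx, hy, hu, hv, h⟩ := hz'
    have b1 := Nat.mul_le_mul_right y a1
    have b2 := Nat.mul_le_mul_right x a2
    have b3 : x + k * y ≠ y + m * x := by
      intro h1
      obtain ⟨k, rfl⟩ := Nat.exists_eq_add_of_le' (show 1 ≤ k by omega)
      obtain ⟨m, rfl⟩ := Nat.exists_eq_add_of_le' (show 1 ≤ m by omega)
      have h2 : x ∣ k * y := ⟨m, by linear_combination h1⟩
      rcases hx.dvd_mul.1 h2 with h3 | h3
      · have := Nat.le_of_dvd (by omega) h3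
        omega
      · have := (Nat.prime_dvd_prime_iff_eq hx hy).1 h3
        omega
    have h' := cyc hl hx hy hu hv e rfl rfl (by omega) (by omega) (by omega) (by omega) (by omega)
      (by omega) (by omega) b3 h
    have g1 := good3 hl hx hv (by omega) (by omega)
    have g2 := good3 hl hx hy (by omega) (by omega)
    have g3 := good3 hl hy hu (by omega) (by omega)
    have g4 := sq2 hu hv b3
    have c2 : k * y ≤ P * (3 * N) := Nat.mul_le_mul a3 (by omega)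
    have c3 : m * x ≤ P * (3 * N) := Nat.mul_le_mul a4 (by omega)
    have c4 : N ≤ P * N := Nat.le_mul_of_pos_left N (by omega)
    have c5 : k * m ≤ P * P := Nat.mul_le_mul a3 a4
    rw [mul_left_comm] at c2 c3
    have big : ∀ {a p q : ℕ}, a ≤ P * P → p ≤ 6 * (P * N) → q ≤ 6 * (P * N) →
        Squarefree (a * (p * q)) → a * (p * q) ∈ Icc 1 X := fun {a p q} c1 c2 c3 c4 =>
      mem_Icc.2 ⟨Nat.pos_of_ne_zero c4.ne_zero, le_trans ((Nat.mul_le_mul c1
        (Nat.mul_le_mul c2 c3)).trans_eq (by ring)) hX⟩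
    have d1 : ∀ a p q : ℕ, p ∣ a * (p * q) ∧ q ∣ a * (p * q) := fun a p q =>
      ⟨(dvd_mul_right p q).mul_left a, (dvd_mul_left q p).mul_left a⟩
    have d2 : (l : ℝ) ≤ B := le_trans (Nat.cast_le.2 (by omega)) hB
    have d3 : ((1 : ℕ) : ℝ) ≤ B := le_trans (Nat.cast_le.2 hl.one_le) d2
    rcases sign4 hs h' with h1 | h1 | h1 | h1
    · exact mem_biUnion.2 ⟨_, mem_filter.2 ⟨big (by omega) (by omega) (by omega) g1.1, g1.1,
        g1.2.le, two_big hx hv hl.pos d2, h1⟩, mem_filter.2 ⟨hz, Or.inl (d1 _ _ _)⟩⟩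
    · exact mem_biUnion.2 ⟨_, mem_filter.2 ⟨big (by omega) (by omega) (by omega) g2.1, g2.1,
        g2.2.le, two_big hx hy hl.pos d2, h1⟩, mem_filter.2 ⟨hz, Or.inr (Or.inl (d1 _ _ _))⟩⟩
    · exact mem_biUnion.2 ⟨_, mem_filter.2 ⟨big (by omega) (by omega) (by omega) g3.1, g3.1,
        g3.2.le, two_big hy hu hl.pos d2, h1⟩, mem_filter.2 ⟨hz, Or.inr (Or.inr (Or.inl (d1 _ _ _)))⟩⟩
    · have h2 := big (a := 1) (p := x + k * y) (q := y + m * x) (by omega) (by omega) (by omega)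
        (by rw [one_mul]; exact g4.1)
      have h3 := two_big hu hv one_pos d3
      rw [one_mul] at h2 h3
      exact mem_biUnion.2 ⟨_, mem_filter.2 ⟨h2, g4.1, by omega, h3, h1⟩, mem_filter.2
        ⟨hz, Or.inr (Or.inr (Or.inr ⟨dvd_mul_right _ _, dvd_mul_left _ _⟩))⟩⟩
  · rw [mul_comm]
    refine sum_le_card_nsmul _ _ _ fun c hc => ?_
    obtain ⟨-, h1, h2, -⟩ := mem_filter.1 hc
    have key : ∀ f g : ℕ × ℕ → ℕ, (∀ z ∈ Quad k m l N, (f z).Prime ∧ (g z).Prime) →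
        (∀ z z', f z = f z' → g z = g z' → z = z') →
        #((Quad k m l N).filter fun z => f z ∣ c ∧ g z ∣ c) ≤ 9 := fun f g h3 h4 => by
      refine (card_le_card_of_injOn (t := c.primeFactors ×ˢ c.primeFactors) (fun z => (f z, g z))
        (fun z hz => ?_) fun z _ z' _ h => h4 z z' (Prod.mk.inj h).1 (Prod.mk.inj h).2).trans ?_
      · obtain ⟨h5, h6⟩ := mem_filter.1 hz
        exact mem_product.2 ⟨Nat.mem_primeFactors.2 ⟨(h3 z h5).1, h6.1, h1.ne_zero⟩,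
          Nat.mem_primeFactors.2 ⟨(h3 z h5).2, h6.2, h1.ne_zero⟩⟩
      · rw [card_product]
        exact Nat.mul_le_mul h2 h2
    have k1 := key (fun z => z.1) (fun z => z.2 + m * z.1)
      (fun z hz => ⟨(mem_filter.1 hz).2.1, (mem_filter.1 hz).2.2.2.2.1⟩) fun z z' e1 e2 => by
        rw [e1] at e2
        exact Prod.ext e1 (Nat.add_right_cancel e2)
    have k2 := key (fun z => z.1) (fun z => z.2)
      (fun z hz => ⟨(mem_filter.1 hz).2.1, (mem_filter.1 hz).2.2.1⟩) fun z z' e1 e2 => Prod.ext e1 e2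
    have k3 := key (fun z => z.2) (fun z => z.1 + k * z.2)
      (fun z hz => ⟨(mem_filter.1 hz).2.2.1, (mem_filter.1 hz).2.2.2.1⟩) fun z z' e1 e2 => by
        rw [e1] at e2
        exact Prod.ext (Nat.add_right_cancel e2) e1
    have k4 := key (fun z => z.1 + k * z.2) (fun z => z.2 + m * z.1)
      (fun z hz => ⟨(mem_filter.1 hz).2.2.2.1, (mem_filter.1 hz).2.2.2.2.1⟩) fun z z' e1 e2 => by
        have e3 : z.1 = z'.1 := by
          refine Nat.eq_of_mul_eq_mul_left hl.pos ?_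
          zify at e e1 e2 ⊢
          linear_combination k * e2 - e1 + ((z.1 : ℤ) - z'.1) * e
        rw [e3] at e2
        exact Prod.ext e3 (Nat.add_right_cancel e2)
    rw [filter_or, filter_or, filter_or]
    exact (card_union_le _ _).trans (Nat.add_le_add k1 ((card_union_le _ _).trans
      (Nat.add_le_add k2 ((card_union_le _ _).trans (Nat.add_le_add k3 k4)))))

theorem many_mods2 : ∃ A X₀ : ℕ, ∀ X ≥ X₀, ∀ s : ℝ, s = 1 ∨ s = -1 →
    (X : ℝ) / Real.log X ^ A ≤ #(Mods2 s (Real.log X ^ A) X) := by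
  obtain ⟨b, h⟩ := quad_count
  obtain ⟨t₀, h⟩ := eventually_atTop.1 (h.and (eventually_ge_atTop
    (324 * 2 ^ (4 * b) * (96000 * 4 ^ 4 * 36))))
  refine ⟨4 * b + 5, 36 * (t₀ ^ b) ^ 4 * (3 ^ t₀) ^ 2, fun X hX s hs => ?_⟩
  have hex : ∃ t, X < 36 * ((t₀ + t + 1) ^ b) ^ 4 * (3 ^ (t₀ + t + 1)) ^ 2 := by
    refine ⟨X, ?_⟩
    have h1 : t₀ + X + 1 < 3 ^ (t₀ + X + 1) := Nat.lt_pow_self (by norm_num)
    have h2 : 1 ≤ ((t₀ + X + 1) ^ b) ^ 4 := Nat.one_le_pow _ _ (Nat.one_le_pow _ _ (by omega))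
    nlinarith
  have h1 := Nat.find_spec hex
  have h2 : 36 * ((t₀ + Nat.find hex) ^ b) ^ 4 * (3 ^ (t₀ + Nat.find hex)) ^ 2 ≤ X := by
    rcases Nat.eq_zero_or_pos (Nat.find hex) with h0 | h0
    · rw [h0]
      exact hX
    · have := Nat.find_min hex (Nat.sub_lt h0 one_pos)
      rw [show t₀ + (Nat.find hex - 1) + 1 = t₀ + Nat.find hex by omega] at this
      exact not_lt.1 this
  obtain ⟨⟨k, m, l, a1, a2, a3, a4, a5, a6, a7, a8⟩, a9⟩ := h _ (Nat.le_add_right t₀ (Nat.find hex))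
  generalize t₀ + Nat.find hex = t at *
  have t1 : 1 ≤ t := le_trans (Nat.succ_le_of_lt (by positivity)) a9
  have t1' : (1 : ℝ) ≤ t := by exact_mod_cast t1
  have b2 : (t : ℝ) ≤ Real.log X := by
    have c1 : 3 ^ t ≤ X := by
      have c2 : 1 ≤ (t ^ b) ^ 4 := Nat.one_le_pow _ _ (Nat.one_le_pow _ _ t1)
      have c3 : 1 ≤ 3 ^ t := Nat.one_le_pow _ _ (by norm_num)
      nlinarith
    have c2 : 1 ≤ Real.log 3 := by
      rw [Real.le_log_iff_exp_le (by norm_num)]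
      linarith [Real.exp_one_lt_d9]
    have c3 := Real.log_le_log (by positivity) ((Nat.cast_le (α := ℝ)).2 c1)
    rw [Nat.cast_pow, Real.log_pow, Nat.cast_ofNat] at c3
    nlinarith
  have b0 : ((t ^ b * t ^ b : ℕ) : ℝ) ≤ Real.log X ^ (4 * b + 5) := by
    rw [← pow_add, Nat.cast_pow]
    exact (pow_le_pow_right₀ t1' (by omega)).trans (pow_le_pow_left₀ (by positivity) b2 _)
  have b1 : (#(Quad k m l (3 ^ t)) : ℝ) ≤ 36 * #(Mods2 s (Real.log X ^ (4 * b + 5)) X) := by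
    exact_mod_cast quad_le2 hs a1 a2 a3 a4 a5 a6 a7 h2 b0
  generalize Mods2 s (Real.log X ^ (4 * b + 5)) X = M at *
  have b3 : (X : ℝ) ≤ 36 * (((t : ℝ) + 1) ^ b) ^ 4 * (3 ^ (t + 1)) ^ 2 := by exact_mod_cast h1.le
  have b4 : (324 * 2 ^ (4 * b) * (96000 * 4 ^ 4 * 36) : ℝ) ≤ t := by exact_mod_cast a9
  rw [div_le_iff₀ (pow_pos (by linarith) _)]
  push_cast at a8
  calc (X : ℝ) ≤ 36 * ((2 * (t : ℝ)) ^ b) ^ 4 * (3 ^ (t + 1)) ^ 2 := b3.trans (by
        gcongr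
        linarith)
    _ = 324 * 2 ^ (4 * b) * (t : ℝ) ^ (4 * b) * (3 ^ t) ^ 2 := by ring
    _ ≤ 324 * 2 ^ (4 * b) * (t : ℝ) ^ (4 * b) * (96000 * (4 * t) ^ 4 * (36 * #M)) := by
        gcongr
        exact a8.trans (by gcongr)
    _ = 324 * 2 ^ (4 * b) * (96000 * 4 ^ 4 * 36) * (#M * (t : ℝ) ^ (4 * b + 4)) := by ring
    _ ≤ t * (#M * (t : ℝ) ^ (4 * b + 4)) := by gcongr
    _ = #M * (t : ℝ) ^ (4 * b + 5) := by ring
    _ ≤ _ := by gcongr

end Pool.Agent.Lib.KL3
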