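import Pool.Agent.Lib.MP_090305_nt.Signs
import Pool.Agent.Lib.LQ.B3a

/-!
The signs of Kloosterman sums to one prime modulus: a positive proportion of negative triples.
-/

set_option autoImplicit false

open Finset
open scoped Classical

namespace Pool.Agent.Lib.KL3

open Pool.Agent.Lib.MP_090305_nt Pool.Agent.Lib.LQ

/-- The real number `S(t,t;l)`. -/
noncomputable def kr (l : ℕ) (t : ZMod l) : ℝ :=
  if h : l = 0 then 0 else
    haveI : NeZero l := ⟨h⟩
    (kap l t).re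

lemma kk_kr (l a : ℕ) : kk l a = kr l ((a : ZMod l)⁻¹) := rfl

lemma kr_eq (l : ℕ) [NeZero l] (t : ZMod l) : (kr l t : ℂ) = kap l t := by
  unfold kr
  rw [dif_neg (NeZero.ne l), kap_re]

variable {l : ℕ} [hl : Fact l.Prime]

lemma kr_neg (t : ZMod l) : kr l (-t) = kr l t := by
  apply Complex.ofReal_injective
  rw [kr_eq, kr_eq, kap_neg]

lemma kr_ne (t : ZMod l) : kr l t ≠ 0 := by
  intro h
  have := kr_eq l t
  rw [h] at this
  exact kap_ne_zero l _ (by exact_mod_cast this.symm)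

lemma kr_zero : kr l 0 = (l : ℝ) - 1 := by
  apply Complex.ofReal_injective
  rw [kr_eq]
  unfold kap
  simp only [zero_mul, AddChar.map_zero_eq_one, sum_const, card_univ, ZMod.card_units,
    nsmul_eq_mul, mul_one]
  rw [Nat.cast_sub hl.out.one_le]
  push_cast
  rfl

lemma kr_S (t : ZMod l) : B3a.S t t = kr l t := by
  rw [kr_eq]
  unfold kap B3a.S
  exact sum_congr rfl fun x _ => by rw [mul_add]

lemma sq_card (c : ZMod l) : #{t : ZMod l | t ^ 2 = c} ≤ 2 := by
  rcases ({t : ZMod l | t ^ 2 = c} : Finset (ZMod l)).eq_empty_or_nonempty with h | ⟨s, h⟩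
  · simp [h]
  · have h0 : s ^ 2 = c := by simpa using h
    refine le_trans (card_le_card (t := {s, -s}) fun t ht => ?_) card_le_two
    have h1 : t ^ 2 = c := by simpa using ht
    simpa using sq_eq_sq_iff_eq_or_eq_neg.1 (h1.trans h0.symm)

lemma sum_kr (h4 : l % 4 = 3) : ∑ t, kr l t = 0 := by
  apply Complex.ofReal_injective
  push_cast
  simp only [kr_eq]
  unfold kap
  rw [sum_comm]
  refine sum_eq_zero fun x _ => ?_
  rw [AddChar.sum_mulShift _ (ZMod.isPrimitive_stdAddChar l), if_neg, Nat.cast_zero]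
  intro h
  refine (ZMod.exists_sq_eq_neg_one_iff.1 ⟨x, ?_⟩) h4
  have := x.mul_inv
  linear_combination this - (x : ZMod l) * h

lemma sum_kr2 : (l : ℝ) * (2 * l - 6) ≤ ∑ t, kr l t ^ 2 := by
  have hp := hl.out
  have h0 : (0 : ℝ) < l := by exact_mod_cast hp.pos
  have h1 := B3a.second (n := l) (fun x : (ZMod l)ˣ => (x : ZMod l) + ((x⁻¹ : (ZMod l)ˣ) : ZMod l))
    (fun _ => 0)
  have h2 : ∀ t : ZMod l, ‖kap l t‖ ^ 2 = kr l t ^ 2 := fun t => by
    rw [← kr_eq, Complex.norm_real, Real.norm_eq_abs, sq_abs]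
  rw [Fintype.sum_prod_type] at h1
  simp only [mul_zero, add_zero, sum_const, card_univ, ZMod.card, nsmul_eq_mul, and_true] at h1
  rw [← mul_sum] at h1
  have h3 : ∑ t : ZMod l, ‖∑ x : (ZMod l)ˣ, ZMod.stdAddChar
      (t * ((x : ZMod l) + ((x⁻¹ : (ZMod l)ˣ) : ZMod l)))‖ ^ 2 = ∑ t, kr l t ^ 2 :=
    sum_congr rfl fun t _ => h2 t
  rw [h3] at h1
  have h4 : #{x : (ZMod l)ˣ | x = x⁻¹} ≤ 2 := by
    refine le_trans (card_le_card_of_injOn (fun x => (x : ZMod l)) (fun x hx => ?_)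
      fun x _ y _ h => Units.ext h) (sq_card 1)
    have h5 : x = x⁻¹ := by simpa using hx
    have h6 := x.mul_inv
    rw [← h5] at h6
    simpa [sq] using h6
  have h5 := card_filter_add_card_filter_not (s := (univ : Finset (ZMod l)ˣ)) fun x => x = x⁻¹
  rw [card_univ, ZMod.card_units] at h5
  have h6 : #((univ.filter fun x : (ZMod l)ˣ => ¬ x = x⁻¹) ×ˢ (univ : Finset Bool)) ≤
      #{z : (ZMod l)ˣ × (ZMod l)ˣ | (z.1 : ZMod l) + ((z.1⁻¹ : (ZMod l)ˣ) : ZMod l) =
        (z.2 : ZMod l) + ((z.2⁻¹ : (ZMod l)ˣ) : ZMod l)} := by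
    refine card_le_card_of_injOn (fun w => (w.1, if w.2 then w.1 else w.1⁻¹)) (fun w _ => ?_)
      fun w hw w' _ h => ?_
    · simp only [coe_filter, mem_univ, true_and, Set.mem_ofPred_eq]
      split_ifs
      · rfl
      · rw [inv_inv, add_comm]
    · obtain ⟨x, b⟩ := w
      obtain ⟨x', b'⟩ := w'
      obtain ⟨rfl, h'⟩ := Prod.mk.inj h
      have hx : ¬ x = x⁻¹ := by simpa using hw
      cases b <;> cases b'
      · rfl
      · exact absurd (by simpa using h'.symm) hx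
      · exact absurd (by simpa using h') hx
      · rfl
  rw [card_product, card_univ, Fintype.card_bool] at h6
  have h7 : (2 * l - 6 : ℝ) ≤ #{z : (ZMod l)ˣ × (ZMod l)ˣ | (z.1 : ZMod l) +
      ((z.1⁻¹ : (ZMod l)ˣ) : ZMod l) = (z.2 : ZMod l) + ((z.2⁻¹ : (ZMod l)ˣ) : ZMod l)} := by
    have h8 := hp.one_le
    have : 2 * l ≤ #{z : (ZMod l)ˣ × (ZMod l)ˣ | (z.1 : ZMod l) +
      ((z.1⁻¹ : (ZMod l)ˣ) : ZMod l) = (z.2 : ZMod l) + ((z.2⁻¹ : (ZMod l)ˣ) : ZMod l)} + 6 := by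
      omega
    have h9 := (Nat.cast_le (α := ℝ)).2 this
    rw [Nat.cast_add, Nat.cast_mul, Nat.cast_ofNat, Nat.cast_ofNat] at h9
    linarith
  refine le_of_mul_le_mul_left ?_ h0
  rw [h1]
  nlinarith [mul_le_mul_of_nonneg_left h7 (sq_nonneg (l : ℝ))]

lemma sum_kr4 : ((l : ℝ) - 1) * ∑ t with t ≠ 0, kr l t ^ 4 ≤ 16 * (l : ℝ) ^ 4 := by
  have hp := hl.out
  have h1 := B3a.fourth (n := l)
  rw [hp.divisors, card_pair hp.one_lt.ne] at h1
  set f : ZMod l × (ZMod l)ˣ → ZMod l × ZMod l := fun z => (z.1 * z.2, z.1 * (z.2⁻¹ : (ZMod l)ˣ))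
    with hf
  have h2 : ((l : ℝ) - 1) * ∑ t with t ≠ 0, kr l t ^ 4 =
      ∑ z ∈ (univ.filter fun t : ZMod l => t ≠ 0) ×ˢ (univ : Finset (ZMod l)ˣ),
        ‖B3a.S (f z).1 (f z).2‖ ^ 4 := by
    rw [sum_product, mul_sum]
    refine sum_congr rfl fun t _ => ?_
    simp only [hf, B3a.S_mul, sum_const, card_univ, ZMod.card_units, nsmul_eq_mul, kr_S]
    rw [Nat.cast_sub hp.one_le, Complex.norm_real, Real.norm_eq_abs, Nat.cast_one,
      show 4 = 2 * 2 from rfl, pow_mul, pow_mul, sq_abs]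
  have h3 : ∑ z ∈ (univ.filter fun t : ZMod l => t ≠ 0) ×ˢ (univ : Finset (ZMod l)ˣ),
        ‖B3a.S (f z).1 (f z).2‖ ^ 4 ≤ 2 * ∑ w : ZMod l × ZMod l, ‖B3a.S w.1 w.2‖ ^ 4 := by
    rw [← sum_fiberwise_of_maps_to (t := univ) (g := f) fun _ _ => mem_univ _, mul_sum]
    refine sum_le_sum fun w _ => ?_
    rw [sum_congr rfl (g := fun _ => ‖B3a.S w.1 w.2‖ ^ 4) fun t ht => by rw [(mem_filter.1 ht).2],
      sum_const, nsmul_eq_mul]
    refine mul_le_mul_of_nonneg_right ?_ (by positivity)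
    have : #{z ∈ (univ.filter fun t : ZMod l => t ≠ 0) ×ˢ (univ : Finset (ZMod l)ˣ) | f z = w} ≤
        2 := by
      refine le_trans (card_le_card_of_injOn Prod.fst (fun z hz => ?_)
        fun z hz z' hz' h => ?_) (sq_card (w.1 * w.2))
      · have h4 := (mem_filter.1 hz).2
        have h5 := z.2.mul_inv
        simp only [coe_filter, mem_univ, true_and, Set.mem_ofPred_eq, ← h4, hf]
        linear_combination (-z.1 ^ 2) * h5
      · have h4 := (Prod.mk.inj ((mem_filter.1 hz).2.trans (mem_filter.1 hz').2.symm)).1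
        have h5 : z.1 ≠ 0 := (mem_filter.1 (mem_product.1 (mem_filter.1 hz).1).1).2
        rw [← h] at h4
        exact Prod.ext h (Units.ext (mul_left_cancel₀ h5 h4))
    exact_mod_cast this
  rw [h2]
  push_cast at h1
  nlinarith

lemma poly_le (z : ℝ) : (-6 * z + z ^ 2 - z ^ 4 / 128) / 100 ≤ if z < 0 then 1 else 0 := by
  split_ifs with h
  · nlinarith [sq_nonneg (z + 7), sq_nonneg (z ^ 2 - 128), sq_nonneg (z ^ 2 - 55)]
  · have h0 := not_lt.1 h
    nlinarith [mul_nonneg h0 (mul_nonneg (sq_nonneg (z - 7)) (by linarith : 0 ≤ z + 14)),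
      sq_nonneg z]

lemma card_neg (h4 : l % 4 = 3) (h9 : 9 ≤ l) : (l : ℝ) / 400 ≤ #{t : ZMod l | kr l t < 0} := by
  have h0 : (9 : ℝ) ≤ l := by exact_mod_cast h9
  set σ := √(l : ℝ) with hσ
  have s0 : 0 < σ := Real.sqrt_pos.2 (by linarith)
  have s2 : σ ^ 2 = l := Real.sq_sqrt (by linarith)
  have s4 : σ ^ 4 = (l : ℝ) ^ 2 := by rw [← s2]; ring
  have e : ∀ g : ZMod l → ℝ, ∑ t with t ≠ 0, g t = ∑ t, g t - g 0 := fun g => by
    rw [filter_ne', ← add_sum_erase _ _ (mem_univ 0)]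
    ring
  have a1 : ∑ t with t ≠ 0, kr l t ≤ 0 := by
    rw [e, sum_kr h4, kr_zero]
    linarith
  have a2 : (l : ℝ) ^ 2 / 2 ≤ ∑ t with t ≠ 0, kr l t ^ 2 := by
    rw [e fun t => kr l t ^ 2, kr_zero]
    nlinarith [sum_kr2 (l := l)]
  have a4 : ∑ t with t ≠ 0, kr l t ^ 4 ≤ 32 * (l : ℝ) ^ 3 := by
    refine le_of_mul_le_mul_left (sum_kr4.trans ?_) (by linarith)
    nlinarith [pow_pos (show (0 : ℝ) < l by linarith) 3]
  have b : ∑ t with t ≠ 0, (-6 * (kr l t / σ) + (kr l t / σ) ^ 2 - (kr l t / σ) ^ 4 / 128) / 100 ≤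
      (#{t : ZMod l | kr l t < 0} : ℝ) := by
    refine (sum_le_sum fun t _ => poly_le _).trans ?_
    rw [← sum_boole]
    refine (sum_le_sum_of_subset_of_nonneg (filter_subset _ _) fun _ _ _ => by
      split_ifs <;> norm_num).trans (le_of_eq (sum_congr rfl fun t _ => ?_))
    exact if_congr (by rw [div_lt_iff₀ s0, zero_mul]) rfl rfl
  refine le_trans ?_ b
  simp only [div_pow, s2, s4, ← sum_div, sum_sub_distrib, sum_add_distrib, ← mul_sum]
  have c1 : (∑ t with t ≠ 0, kr l t) / σ ≤ 0 := div_nonpos_of_nonpos_of_nonneg a1 s0.le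
  have c2 : (l : ℝ) / 2 ≤ (∑ t with t ≠ 0, kr l t ^ 2) / l := by
    rw [le_div_iff₀ (by linarith)]
    linarith
  have c4 : (∑ t with t ≠ 0, kr l t ^ 4) / (l : ℝ) ^ 2 ≤ 32 * l := by
    rw [div_le_iff₀ (by positivity)]
    linarith
  linarith

/-- The negative pairs. -/
noncomputable def Neg (l : ℕ) [NeZero l] : Finset (ZMod l × ZMod l) :=
  {w | kr l w.1 * kr l (w.1 + w.2) * kr l w.2 < 0}

lemma card_Neg (h2 : l ≠ 2) : #{t : ZMod l | kr l t < 0} * l ≤ 3 * #(Neg l) := by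
  have h20 : (2 : ZMod l) ≠ 0 := fun h => h2 ((Nat.prime_dvd_prime_iff_eq hl.out Nat.prime_two).1
    ((ZMod.natCast_eq_zero_iff 2 l).1 (by exact_mod_cast h)))
  have h1 : #{w : ZMod l × ZMod l | kr l (2 * w.1) < 0} = #{t : ZMod l | kr l t < 0} * l := by
    have : ({w : ZMod l × ZMod l | kr l (2 * w.1) < 0} : Finset _) =
        (univ.filter fun c : ZMod l => kr l (2 * c) < 0) ×ˢ univ := by
      ext w
      simp
    rw [this, card_product, card_univ, ZMod.card]
    congr 1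
    exact card_equiv (Equiv.mulLeft₀ 2 h20) fun c => by simp
  have h3 : ∀ φ : ZMod l × ZMod l → ZMod l × ZMod l, Function.Injective φ →
      #{w | φ w ∈ Neg l} ≤ #(Neg l) := fun φ hφ =>
    card_le_card_of_injOn φ (fun w hw => (mem_filter.1 hw).2) hφ.injOn
  have h4 := h3 (fun w => (w.1 + w.2, w.1 - w.2)) fun w w' h => by
    obtain ⟨e1, e2⟩ := Prod.mk.inj h
    exact Prod.ext (mul_left_cancel₀ h20 (by linear_combination e1 + e2))
      (mul_left_cancel₀ h20 (by linear_combination e1 - e2))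
  have h5 := h3 id Function.injective_id
  have h6 := h3 (fun w => (w.1, -w.2)) fun w w' h => by
    obtain ⟨e1, e2⟩ := Prod.mk.inj h
    exact Prod.ext e1 (neg_injective e2)
  have h7 : ({w : ZMod l × ZMod l | kr l (2 * w.1) < 0} : Finset _) ⊆
      (univ.filter fun w : ZMod l × ZMod l => (w.1 + w.2, w.1 - w.2) ∈ Neg l) ∪
      ((univ.filter fun w : ZMod l × ZMod l => id w ∈ Neg l) ∪
      (univ.filter fun w : ZMod l × ZMod l => (w.1, -w.2) ∈ Neg l)) := by
    rintro ⟨c, a⟩ hw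
    have b0 : kr l (2 * c) < 0 := (mem_filter.1 hw).2
    by_contra hn
    simp only [Neg, mem_union, mem_filter, mem_univ, true_and, id, not_or, not_lt, kr_neg] at hn
    obtain ⟨b1, b2, b3⟩ := hn
    rw [show c + a + (c - a) = 2 * c by ring] at b1
    rw [← sub_eq_add_neg] at b3
    have b4 := mul_nonneg (mul_nonneg b1 b2) b3
    have b5 : 0 < (kr l (c + a) * kr l (c - a) * kr l c * kr l a) ^ 2 :=
      sq_pos_of_ne_zero (mul_ne_zero (mul_ne_zero (mul_ne_zero (kr_ne _) (kr_ne _)) (kr_ne _))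
        (kr_ne _))
    nlinarith [mul_neg_of_neg_of_pos b0 b5]
  have h8 := (card_le_card h7).trans ((card_union_le _ _).trans
    (Nat.add_le_add_left (card_union_le _ _) _))
  omega

/-- The good pairs of residues. -/
noncomputable def gl (l k m : ℕ) (X Y : ZMod l) : ℝ :=
  if kr l (X * (Y + m * X))⁻¹ * kr l (X * Y)⁻¹ * kr l (Y * (X + k * Y))⁻¹ < 0 ∧
    X + k * Y ≠ 0 ∧ Y + m * X ≠ 0 then 1 else 0

lemma card_good (h4 : l % 4 = 3) {k m : ℕ} (hkm : (k : ZMod l) * m = 1) :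
    (#(Neg l) : ℝ) ≤ 2 * ∑ X, ∑ Y, if X ≠ 0 ∧ Y ≠ 0 then gl l k m X Y else 0 := by
  set G : Finset (ZMod l × ZMod l) := {w | (w.1 ≠ 0 ∧ w.2 ≠ 0) ∧ gl l k m w.1 w.2 = 1} with hG
  have h1 : (#G : ℝ) ≤ ∑ X, ∑ Y, if X ≠ 0 ∧ Y ≠ 0 then gl l k m X Y else 0 := by
    rw [← Fintype.sum_prod_type', hG, ← sum_boole]
    refine sum_le_sum fun w _ => ?_
    by_cases h : w.1 ≠ 0 ∧ w.2 ≠ 0
    · rw [if_pos h]
      split_ifs with h'
      · exact h'.2.ge
      · unfold gl
        split_ifs <;> norm_num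
    · rw [if_neg h, if_neg fun h' => h h'.1]
  let φ : ZMod l × ZMod l → ZMod l × ZMod l :=
    fun w => ((w.1 * (w.2 + m * w.1))⁻¹, (w.2 * (w.1 + k * w.2))⁻¹)
  have hk : (k : ZMod l) ≠ 0 := left_ne_zero_of_mul_eq_one hkm
  have hm : (m : ZMod l) = (k : ZMod l)⁻¹ := (inv_eq_of_mul_eq_one_right hkm).symm
  have hl1 : (0 : ℝ) < (l : ℝ) - 1 := by
    have : (2 : ℝ) ≤ l := by exact_mod_cast hl.out.two_le
    linarith
  have key : ∀ a b : ZMod l, (a, b) ∈ Neg l → IsSquare (a / (k * b * (a + b))) →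
      (a, b) ∈ G.image φ := by
    rintro a b hab ⟨Y, hY⟩
    have n0 : kr l a * kr l (a + b) * kr l b < 0 := (mem_filter.1 hab).2
    have n1 : a ≠ 0 := by
      rintro rfl
      rw [zero_add, kr_zero] at n0
      nlinarith [mul_nonneg hl1.le (mul_self_nonneg (kr l b))]
    have n2 : b ≠ 0 := by
      rintro rfl
      rw [add_zero, kr_zero] at n0
      nlinarith [mul_nonneg hl1.le (mul_self_nonneg (kr l a))]
    have n3 : a + b ≠ 0 := by
      intro h
      rw [h, kr_zero, eq_neg_of_add_eq_zero_left h, kr_neg] at n0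
      nlinarith [mul_nonneg hl1.le (mul_self_nonneg (kr l b))]
    have n4 : Y ≠ 0 := by
      rintro rfl
      exact div_ne_zero n1 (mul_ne_zero (mul_ne_zero hk n2) n3) (by rw [hY, mul_zero])
    have hY' : Y * Y * (k * b * (a + b)) = a := by
      rw [← hY, div_mul_cancel₀ _ (mul_ne_zero (mul_ne_zero hk n2) n3)]
    have e1 : (k * Y * b / a * (Y + m * (k * Y * b / a)))⁻¹ = a := by
      refine inv_eq_of_mul_eq_one_right ?_
      rw [hm]
      field_simp
      linear_combination hY'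
    have e2 : (Y * (k * Y * b / a + k * Y))⁻¹ = b := by
      refine inv_eq_of_mul_eq_one_right ?_
      field_simp
      linear_combination hY'
    have e3 : (k * Y * b / a * Y)⁻¹ = a + b := by
      refine inv_eq_of_mul_eq_one_right ?_
      field_simp
      linear_combination hY'
    refine mem_image.2 ⟨(k * Y * b / a, Y), mem_filter.2 ⟨mem_univ _,
      ⟨div_ne_zero (mul_ne_zero (mul_ne_zero hk n4) n2) n1, n4⟩, ?_⟩, Prod.ext e1 e2⟩
    unfold gl
    rw [if_pos]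
    refine ⟨by rw [e1, e2, e3]; exact n0, fun h => n2 ?_, fun h => n1 ?_⟩
    · rw [← e2, h, mul_zero, inv_zero]
    · rw [← e1, h, mul_zero, inv_zero]
  have h2 : Neg l ⊆ G.image φ ∪ (G.image φ).image fun w => -w := by
    rintro ⟨a, b⟩ hab
    by_cases hs : IsSquare (a / (k * b * (a + b)))
    · exact mem_union_left _ (key a b hab hs)
    · refine mem_union_right _ (mem_image.2 ⟨(-a, -b), key _ _ ?_ ?_, by simp⟩)
      · refine mem_filter.2 ⟨mem_univ _, ?_⟩
        have := (mem_filter.1 hab).2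
        rwa [← neg_add, kr_neg, kr_neg, kr_neg]
      · have e : -a / (k * -b * (-a + -b)) = -1 * (a / (k * b * (a + b))) := by
          rw [← neg_add, mul_neg, mul_neg, neg_mul, neg_neg, neg_div, neg_one_mul]
        have q1 := quadraticChar_neg_one_iff_not_isSquare.2 hs
        have q2 : quadraticChar (ZMod l) (-1) = -1 := quadraticChar_neg_one_iff_not_isSquare.2
          fun h => ZMod.exists_sq_eq_neg_one_iff.1 h h4
        have q3 : a / (k * b * (a + b)) ≠ 0 := fun h => hs (h ▸ IsSquare.zero)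
        rw [e, ← quadraticChar_one_iff_isSquare (mul_ne_zero (by simp) q3), map_mul, q1, q2]
        norm_num
  have h3 := (card_le_card h2).trans ((card_union_le _ _).trans
    (Nat.add_le_add card_image_le (card_image_le.trans card_image_le)))
  have h5 : (#(Neg l) : ℝ) ≤ #G + #G := by exact_mod_cast h3
  linarith

theorem good_density (h4 : l % 4 = 3) (h9 : 9 ≤ l) {k m : ℕ} (hkm : (k : ZMod l) * m = 1) :
    1 / 2400 ≤ (∑ X, ∑ Y, if X ≠ 0 ∧ Y ≠ 0 then gl l k m X Y else 0) / ((l : ℝ) - 1) ^ 2 := by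
  have h0 : (9 : ℝ) ≤ l := by exact_mod_cast h9
  have h1 := card_neg h4 h9
  have h2 : (#{t : ZMod l | kr l t < 0} : ℝ) * l ≤ 3 * #(Neg l) := by
    exact_mod_cast card_Neg (l := l) (by omega)
  have h3 := card_good h4 hkm
  rw [le_div_iff₀ (pow_pos (by linarith) 2)]
  nlinarith [mul_le_mul_of_nonneg_right h1 (show (0 : ℝ) ≤ l by linarith)]

end Pool.Agent.Lib.KL3
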