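import Pool.Agent.Lib.MP_6073f3_nt.Z.Step3
import Pool.Agent.Lib.MP_6073f3_nt.Z.DispA

/-!
Means over pairs of units, local densities of the approximant along two linear forms.
-/

set_option autoImplicit false

open Finset

namespace Pool.Agent.Lib.KL3

open Pool.Agent.Lib.RankZero

theorem crt_one {m n : ℕ} (h : m.Coprime n) (f g : ℕ → ℝ) (hf : ∀ x, f (x % m) = f x)
    (hg : ∀ x, g (x % n) = g x) :
    ∑ x ∈ range (m * n), f x * g x = (∑ x ∈ range m, f x) * ∑ x ∈ range n, g x := by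
  rcases Nat.eq_zero_or_pos m with rfl | hm
  · simp
  rcases Nat.eq_zero_or_pos n with rfl | hn
  · simp
  rw [sum_mul_sum, ← sum_product']
  refine sum_nbij' (fun x => (x % m, x % n)) (fun y => Nat.chineseRemainder h y.1 y.2)
    (fun x _ => by simp [Nat.mod_lt _ hm, Nat.mod_lt _ hn])
    (fun y _ => mem_range.2 (Nat.chineseRemainder_lt_mul h _ _ hm.ne' hn.ne')) (fun x hx => ?_)
    (fun y hy => ?_) fun x _ => by rw [hf, hg]
  · exact Nat.ModEq.eq_of_lt_of_lt (Nat.chineseRemainder_modEq_unique h (Nat.mod_modEq x m).symm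
      (Nat.mod_modEq x n).symm).symm (Nat.chineseRemainder_lt_mul h _ _ hm.ne' hn.ne')
      (mem_range.1 hx)
  · obtain ⟨h1, h2⟩ := mem_product.1 hy
    have := (Nat.chineseRemainder h y.1 y.2).2
    exact Prod.ext (Eq.trans this.1 (Nat.mod_eq_of_lt (mem_range.1 h1)))
      (Eq.trans this.2 (Nat.mod_eq_of_lt (mem_range.1 h2)))

theorem dvd_sub_mod (x m : ℕ) : (m : ℤ) ∣ x - (x % m : ℕ) := by
  push_cast; exact Int.dvd_self_sub_emod

theorem cop_mod (x m : ℕ) : (x % m).Coprime m ↔ x.Coprime m := by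
  rw [Nat.Coprime, ← Nat.gcd_rec, Nat.gcd_comm]

theorem mean_mul {m n : ℕ} (h : m.Coprime n) {F G : ℤ → ℤ → ℝ} (hF : Per m F) (hG : Per n G) :
    mean (m * n) (fun x y => F x y * G x y) = mean m F * mean n G := by
  have key : ∀ {m : ℕ} {F : ℤ → ℤ → ℝ}, Per m F → ∀ x y : ℕ,
      ((if (x % m).Coprime m ∧ y.Coprime m then F (x % m : ℕ) y else 0) =
        if x.Coprime m ∧ y.Coprime m then F x y else 0) ∧
      (if x.Coprime m ∧ (y % m).Coprime m then F x (y % m : ℕ) else 0) =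
        if x.Coprime m ∧ y.Coprime m then F x y else 0 := fun {m F} hF x y => by
    rw [hF _ y x y (dvd_sub_mod x m) (by simp), hF x _ x y (by simp) (dvd_sub_mod y m)]
    simp only [cop_mod, and_self]
  rw [mean, mean, mean, Nat.totient_mul h, div_mul_div_comm, Nat.cast_mul, mul_pow,
    ← crt_one h _ _ (fun x => sum_congr rfl fun y _ => (key hF x y).1)
      fun x => sum_congr rfl fun y _ => (key hG x y).1]
  congr 1
  refine sum_congr rfl fun x _ => ?_
  rw [← crt_one h _ _ (fun y => (key hF x y).2) fun y => (key hG x y).2]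
  refine sum_congr rfl fun y _ => ?_
  simp only [Nat.coprime_mul_iff_right, ite_zero_mul_ite_zero]
  exact if_congr (by tauto) rfl rfl

theorem per_mono {m n : ℕ} {F : ℤ → ℤ → ℝ} (hF : Per m F) (h : m ∣ n) : Per n F :=
  fun x y x' y' h1 h2 => hF x y x' y' ((Int.natCast_dvd_natCast.2 h).trans h1)
    ((Int.natCast_dvd_natCast.2 h).trans h2)

theorem mean_prod (F : ℕ → ℤ → ℤ → ℝ) (hF : ∀ i, Per i (F i)) (s : Finset ℕ)
    (hs : ∀ p ∈ s, p.Prime) :
    mean (∏ i ∈ s, i) (fun x y => ∏ i ∈ s, F i x y) = ∏ i ∈ s, mean i (F i) := by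
  induction s using Finset.induction_on with
  | empty => simp [mean]
  | insert a s ha ih =>
    simp only [prod_insert ha]
    rw [mean_mul (Nat.Coprime.prod_right fun i hi => (Nat.coprime_primes (hs a (by simp))
      (hs i (by simp [hi]))).2 (by rintro rfl; exact ha hi)) (hF a)
      fun x y x' y' h1 h2 => prod_congr rfl fun i hi =>
        per_mono (hF i) (dvd_prod_of_mem (fun i => i) hi) x y x' y' h1 h2,
      ih fun p hp => hs p (mem_insert_of_mem hp)]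

theorem mean_prime {p : ℕ} [Fact p.Prime] (f : ZMod p → ZMod p → ℝ) :
    mean p (fun x y => f x y) =
      (∑ u, ∑ v, if u ≠ 0 ∧ v ≠ 0 then f u v else 0) / ((p : ℝ) - 1) ^ 2 := by
  have hp : p.Prime := Fact.out
  have e : ∀ g : ZMod p → ℝ, ∑ x ∈ range p, g x = ∑ u, g u := fun g =>
    sum_nbij' (fun x => (x : ZMod p)) ZMod.val (fun _ _ => mem_univ _)
      (fun u _ => mem_range.2 (ZMod.val_lt u)) (fun x hx => ZMod.val_cast_of_lt (mem_range.1 hx))
      (fun u _ => ZMod.natCast_zmod_val u) fun _ _ => rfl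
  have h : ∀ x : ℕ, x.Coprime p ↔ (x : ZMod p) ≠ 0 := fun x => by
    rw [Nat.coprime_comm, hp.coprime_iff_not_dvd, Ne, ZMod.natCast_eq_zero_iff]
  rw [mean, Nat.totient_prime hp, Nat.cast_pred hp.pos, ← e]
  simp only [h, Int.cast_natCast, ← e]

theorem mean_scale {M : ℕ} {F G : ℤ → ℤ → ℝ} (c : ℝ)
    (h : ∀ x y : ℕ, x.Coprime M → y.Coprime M → F x y = c * G x y) : mean M F = c * mean M G := by
  unfold mean
  rw [← mul_div_assoc, mul_sum]
  congr 1
  refine sum_congr rfl fun x _ => ?_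
  rw [mul_sum]
  refine sum_congr rfl fun y _ => ?_
  split_ifs with h'
  · exact h x y h'.1 h'.2
  · simp

theorem sw_pair {Q a b N : ℕ} {E : ℝ} (hQ : 1 ≤ Q) {F : ℤ → ℤ → ℝ} (hF : Per Q F)
    (hb : ∀ x y, |F x y| ≤ 1) (ha : ∀ c < Q, |Eth Q c a (a + N)| ≤ E)
    (hc : ∀ c < Q, |Eth Q c b (b + N)| ≤ E) :
    (N : ℝ) ^ 2 * mean Q F - (Q : ℝ) ^ 2 * (2 * N * E + E ^ 2) ≤
      ∑ x ∈ Ioc a (a + N), ∑ y ∈ Ioc b (b + N), th x * th y * F x y := by
  have hφ : (1 : ℝ) ≤ Q.totient := by exact_mod_cast Nat.totient_pos.2 hQ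
  let u : ℕ → ℝ := fun k => if k.Coprime Q then (N : ℝ) / Q.totient else 0
  have hu : ∀ k, |u k| ≤ N := fun k => by
    simp only [u]
    split_ifs
    · rw [abs_of_nonneg (by positivity)]
      exact div_le_self (by positivity) hφ
    · simp
  have e4 : (N : ℝ) ^ 2 * mean Q F = ∑ k ∈ range Q, ∑ l ∈ range Q, F k l * (u k * u l) := by
    rw [mean, ← mul_div_assoc, mul_sum, sum_div]
    refine sum_congr rfl fun k _ => ?_
    rw [mul_sum, sum_div]
    refine sum_congr rfl fun l _ => ?_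
    by_cases a1 : k.Coprime Q
    · by_cases a2 : l.Coprime Q
      · rw [if_pos ⟨a1, a2⟩, show u k = _ from if_pos a1, show u l = _ from if_pos a2]
        ring
      · rw [if_neg fun h => a2 h.2, show u l = _ from if_neg a2]
        ring
    · rw [if_neg fun h => a1 h.1, show u k = _ from if_neg a1]
      ring
  have e5 : (Q : ℝ) ^ 2 * (2 * N * E + E ^ 2) =
      ∑ k ∈ range Q, ∑ l ∈ range Q, (2 * N * E + E ^ 2) := by
    simp only [sum_const, card_range, nsmul_eq_mul]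
    ring
  rw [s3_class hQ hF, e4, e5, ← sum_sub_distrib]
  refine sum_le_sum fun k hk => ?_
  rw [← sum_sub_distrib]
  refine sum_le_sum fun l hl => ?_
  have a1 : cls th Q k a (a + N) = Eth Q k a (a + N) + u k := by
    simp only [Eth, u, Nat.add_sub_cancel_left, sub_add_cancel]
  have a2 : cls th Q l b (b + N) = Eth Q l b (b + N) + u l := by
    simp only [Eth, u, Nat.add_sub_cancel_left, sub_add_cancel]
  have a3 := ha k (mem_range.1 hk)
  have a4 := hc l (mem_range.1 hl)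
  rw [a1, a2]
  generalize Eth Q k a (a + N) = s at *
  generalize Eth Q l b (b + N) = t at *
  have E0 := (abs_nonneg _).trans a3
  have a5 : |F k l * (s * t + s * u l + u k * t)| ≤ 1 * (E * E + E * N + N * E) := by
    rw [abs_mul]
    refine mul_le_mul (hb _ _) ((abs_add_three _ _ _).trans ?_) (abs_nonneg _) zero_le_one
    rw [abs_mul, abs_mul, abs_mul]
    gcongr
    exacts [hu l, hu k]
  nlinarith [neg_abs_le (F k l * (s * t + s * u l + u k * t))]

section Local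

variable {p : ℕ} [hp : Fact p.Prime]

theorem loc_one (c : ℝ) : ∑ v : ZMod p, (if v ≠ 0 then c else 0) = ((p : ℝ) - 1) * c := by
  rw [← sum_filter, filter_ne', sum_const, card_erase_of_mem (mem_univ _), card_univ, ZMod.card,
    nsmul_eq_mul, Nat.cast_pred hp.out.pos]

theorem loc_a {k : ZMod p} (hk : k ≠ 0) :
    ∑ u : ZMod p, ∑ v : ZMod p, (if u ≠ 0 ∧ v ≠ 0 then s3_h p (u + k * v) else 0) = -1 := by
  have h2 : (2 : ℝ) ≤ p := by exact_mod_cast hp.out.two_le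
  have h1 : ∀ u : ZMod p, ∑ v : ZMod p, (if u ≠ 0 ∧ v ≠ 0 then s3_h p (u + k * v) else 0) =
      if u ≠ 0 then -(1 / ((p : ℝ) - 1)) else 0 := fun u => by
    by_cases hu : u = 0
    · simp [hu]
    · have h3 : ∑ v : ZMod p, s3_h p (u + k * v) = 0 := by
        rw [← s3_sum_h p]
        exact Equiv.sum_comp ((Equiv.mulLeft₀ k hk).trans (Equiv.addLeft u)) (s3_h p)
      rw [← add_sum_erase _ _ (mem_univ 0), mul_zero, add_zero, s3_h, if_neg hu] at h3
      simp only [ne_eq, hu, not_false_eq_true, true_and, if_true]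
      rw [← sum_filter, filter_ne']
      linarith
  rw [sum_congr rfl fun u _ => h1 u, loc_one, mul_neg, mul_one_div_cancel (by linarith)]

theorem loc_b {m : ZMod p} (hm : m ≠ 0) :
    ∑ u : ZMod p, ∑ v : ZMod p, (if u ≠ 0 ∧ v ≠ 0 then s3_h p (v + m * u) else 0) = -1 := by
  rw [sum_comm, ← loc_a hm]
  exact sum_congr rfl fun u _ => sum_congr rfl fun v _ => if_congr and_comm rfl rfl

theorem loc_c (c : ℝ) :
    ∑ u : ZMod p, ∑ v : ZMod p, (if u ≠ 0 ∧ v ≠ 0 then c else 0) = ((p : ℝ) - 1) ^ 2 * c := by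
  simp only [ite_and, sum_ite_irrel, sum_const_zero, loc_one]
  ring

theorem loc_d {k m : ZMod p} (hk : k ≠ 0) (hm : m ≠ 0) (h : k * m ≠ 1) :
    ∑ u : ZMod p, ∑ v : ZMod p, (if u ≠ 0 ∧ v ≠ 0 then s3_h p (u + k * v) * s3_h p (v + m * u)
      else 0) = -(1 + 2 / ((p : ℝ) - 1)) := by
  have h2 : (2 : ℝ) ≤ p := by exact_mod_cast hp.out.two_le
  set w := 1 / ((p : ℝ) - 1) with hw
  have h1 : ∀ u v : ZMod p, (if u ≠ 0 ∧ v ≠ 0 then s3_h p (u + k * v) * s3_h p (v + m * u) else 0) =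
      w * (if u ≠ 0 ∧ v ≠ 0 then s3_h p (u + k * v) else 0) +
      w * (if u ≠ 0 ∧ v ≠ 0 then s3_h p (v + m * u) else 0) -
      if u ≠ 0 ∧ v ≠ 0 then w ^ 2 else 0 := fun u v => by
    split_ifs with h3
    · unfold s3_h
      split_ifs with h4 h5
      · exact absurd (mul_left_cancel₀ h3.1 (by linear_combination k * h5 - h4)) h
      all_goals ring
    · ring
  simp only [h1, sum_sub_distrib, sum_add_distrib, ← mul_sum]
  rw [loc_a hk, loc_b hm, loc_c, hw]
  have : (p : ℝ) - 1 ≠ 0 := by linarith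
  field_simp
  ring

end Local

/-- The local factor along the two forms. -/
noncomputable def lf (k m : ℕ) (A B : Finset ℕ) (p : ℕ) (x y : ℤ) : ℝ :=
  (if p ∈ A then s3_g p (x + k * y) else 1) * if p ∈ B then s3_g p (y + m * x) else 1

theorem g_per {p : ℕ} {z z' : ℤ} (h : (p : ℤ) ∣ z' - z) : s3_g p z = s3_g p z' :=
  if_congr (dvd_iff_dvd_of_dvd_sub h).symm rfl rfl

theorem lf_per (k m : ℕ) (A B : Finset ℕ) (p : ℕ) : Per p (lf k m A B p) := by
  intro x y x' y' h1 h2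
  unfold lf
  rw [g_per (z' := x' + k * y') ((h1.add (h2.mul_left k)).trans (dvd_of_eq (by ring))),
    g_per (z := y + m * x) (z' := y' + m * x')
      ((h2.add (h1.mul_left m)).trans (dvd_of_eq (by ring)))]

/-- The majorant of the local densities. -/
noncomputable def mj (A B : Finset ℕ) (p : ℕ) : ℝ :=
  if p ∈ B then (if p ∈ A then 3 / 2 * (1 / ((p : ℝ) - 1) ^ 2) else 1 / ((p : ℝ) - 1) ^ 2) else
    if p ∈ A then 1 / ((p : ℝ) - 1) ^ 2 else 1

theorem lf_mean (k m : ℕ) (A B : Finset ℕ) {p : ℕ} [Fact p.Prime] : mean p (lf k m A B p) =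
    (∑ u : ZMod p, ∑ v : ZMod p, if u ≠ 0 ∧ v ≠ 0 then (if p ∈ A then s3_h p (u + k * v) else 1) *
      (if p ∈ B then s3_h p (v + m * u) else 1) else 0) / ((p : ℝ) - 1) ^ 2 := by
  rw [← mean_prime]
  congr 1
  funext x y
  simp only [lf, s3_g_eq]
  push_cast
  rfl

theorem lf_one (k m : ℕ) {A B : Finset ℕ} {p : ℕ} (hp : p.Prime) (hA : p ∉ A) (hB : p ∉ B) :
    mean p (lf k m A B p) = 1 := by
  have := Fact.mk hp
  have h2 : (2 : ℝ) ≤ p := by exact_mod_cast hp.two_le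
  rw [lf_mean, sum_congr rfl fun u _ => sum_congr rfl fun v _ => by
    rw [if_neg hA, if_neg hB, mul_one], loc_c, mul_one, div_self (pow_ne_zero 2 (by linarith))]

theorem lf_le {k m l : ℕ} (hl : l + 1 = k * m) {A B : Finset ℕ} {p : ℕ} (hp : p.Prime)
    (h5 : 5 ≤ p) (hA : p ∈ A → ¬ p ∣ k * l) (hB : p ∈ B → ¬ p ∣ m * l) :
    |mean p (lf k m A B p)| ≤ mj A B p := by
  have := Fact.mk hp
  have h2 : (5 : ℝ) ≤ p := by exact_mod_cast h5
  have hk : p ∈ A → (k : ZMod p) ≠ 0 := fun h h' =>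
    hA h (((ZMod.natCast_eq_zero_iff k p).1 h').mul_right l)
  have hm : p ∈ B → (m : ZMod p) ≠ 0 := fun h h' =>
    hB h (((ZMod.natCast_eq_zero_iff m p).1 h').mul_right l)
  unfold mj
  split_ifs with h1 h3 h3
  · have h4 : (k : ZMod p) * m ≠ 1 := fun h => hA h3 (Dvd.dvd.mul_left
      ((ZMod.natCast_eq_zero_iff l p).1 (by
        have := congrArg (Nat.cast : ℕ → ZMod p) hl
        push_cast at this
        linear_combination this + h)) k)
    rw [lf_mean, sum_congr rfl fun u _ => sum_congr rfl fun v _ => by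
      rw [if_pos h1, if_pos h3], loc_d (hk h3) (hm h1) h4, abs_div, abs_neg,
      abs_of_nonneg (a := (_ : ℝ) ^ 2) (sq_nonneg _), mul_one_div]
    have h6 : 0 ≤ 2 / ((p : ℝ) - 1) := div_nonneg zero_le_two (by linarith)
    have h7 : 2 / ((p : ℝ) - 1) ≤ 1 / 2 := by
      rw [div_le_iff₀ (by linarith)]
      linarith
    rw [abs_of_nonneg (by linarith)]
    exact div_le_div_of_nonneg_right (by linarith) (sq_nonneg _)
  · rw [lf_mean, sum_congr rfl fun u _ => sum_congr rfl fun v _ => by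
      rw [if_pos h1, if_neg h3, one_mul], loc_b (hm h1), abs_div, abs_neg, abs_one,
      abs_of_nonneg (sq_nonneg _)]
  · rw [lf_mean, sum_congr rfl fun u _ => sum_congr rfl fun v _ => by
      rw [if_neg h1, if_pos h3, mul_one], loc_a (hk h3), abs_div, abs_neg, abs_one,
      abs_of_nonneg (sq_nonneg _)]
  · rw [lf_one k m hp h3 h1, abs_one]

theorem pow_one_var (P : Finset ℕ) (a b : ℕ → ℝ) :
    ∑ A ∈ P.powerset, ∏ p ∈ P, (if p ∈ A then a p else b p) = ∏ p ∈ P, (a p + b p) := by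
  rw [prod_add]
  refine sum_congr rfl fun A hA => ?_
  rw [prod_ite, filter_mem_eq_inter, inter_eq_right.2 (mem_powerset.1 hA), filter_notMem_eq_sdiff]

theorem odd_sum (K : ℕ) :
    ∑ k ∈ range K, 1 / (((2 * k + 5 : ℕ) : ℝ) - 1) ^ 2 ≤ 1 / 6 - 1 / (2 * (2 * (K : ℝ) + 3)) := by
  induction K with
  | zero => norm_num
  | succ K ih =>
    rw [sum_range_succ]
    have hK : (0 : ℝ) ≤ K := Nat.cast_nonneg K
    have : 1 / (((2 * K + 5 : ℕ) : ℝ) - 1) ^ 2
        ≤ 1 / (2 * (2 * (K : ℝ) + 3)) - 1 / (2 * (2 * ((K + 1 : ℕ) : ℝ) + 3)) := by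
      push_cast
      rw [div_sub_div _ _ (by positivity) (by positivity),
        div_le_div_iff₀ (by nlinarith) (by positivity)]
      nlinarith
    linarith

theorem mj_sum (P : Finset ℕ) (hP : ∀ p ∈ P, p.Prime ∧ 5 ≤ p) :
    ∑ A ∈ P.powerset, ∑ B ∈ P.powerset, ∏ p ∈ P, mj A B p ≤ 19 / 10 := by
  have e : ∀ A : Finset ℕ, ∑ B ∈ P.powerset, ∏ p ∈ P, mj A B p = ∏ p ∈ P,
      if p ∈ A then 5 / 2 * (1 / ((p : ℝ) - 1) ^ 2) else 1 / ((p : ℝ) - 1) ^ 2 + 1 := fun A => by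
    unfold mj
    rw [pow_one_var]
    refine prod_congr rfl fun p _ => ?_
    split_ifs <;> ring
  rw [sum_congr rfl fun A _ => e A, pow_one_var]
  refine (prod_le_prod (g := fun p : ℕ => Real.exp (7 / 2 * (1 / ((p : ℝ) - 1) ^ 2)))
    (fun _ _ => by positivity) fun p _ => by
      linarith [Real.add_one_le_exp (7 / 2 * (1 / ((p : ℝ) - 1) ^ 2))]).trans ?_
  rw [← Real.exp_sum, ← mul_sum]
  have h1 : ∑ p ∈ P, 1 / ((p : ℝ) - 1) ^ 2 ≤ 1 / 6 := by
    have h2 : P ⊆ (range (P.sup id)).image fun k => 2 * k + 5 := fun p hp => by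
      have h3 : p ≤ P.sup id := le_sup (f := id) hp
      have h4 := (hP p hp).1.eq_two_or_odd
      have h5 := (hP p hp).2
      exact mem_image.2 ⟨(p - 5) / 2, mem_range.2 (by omega), by omega⟩
    refine (sum_le_sum_of_subset_of_nonneg h2 fun _ _ _ => by positivity).trans ?_
    rw [sum_image (fun a _ b _ h => by simpa using h)]
    have h4 : (0 : ℝ) ≤ 1 / (2 * (2 * (P.sup id : ℕ) + 3)) := by positivity
    linarith [odd_sum (P.sup id)]
  refine (Real.exp_le_exp.2 (show _ ≤ (4 : ℕ) * (7 / 48 : ℝ) by push_cast; linarith)).trans ?_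
  rw [Real.exp_nat_mul]
  refine (pow_le_pow_left₀ (Real.exp_pos _).le
    (Real.exp_bound_div_one_sub_of_interval (by norm_num) (by norm_num)) 4).trans ?_
  norm_num

theorem fam1 (F : Finset (Finset ℕ)) (hd : ∀ T ∈ F, ∀ T' ⊆ T, T' ∈ F) (g : ℕ → Prop)
    [DecidablePred g] (w : ℕ → ℝ) (hw : ∀ q, g q → 0 ≤ w q) (P : Finset ℕ)
    (hP : ∀ T ∈ F, ∀ q ∈ T, ¬ g q → q ∈ P) (h : Finset ℕ → ℝ) (h0 : ∀ A, 0 ≤ h A) :
    ∑ T ∈ F, (∏ q ∈ T with g q, w q) * h (T.filter fun q => ¬ g q) ≤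
      (∑ T ∈ F with ∀ q ∈ T, g q, ∏ q ∈ T, w q) * ∑ A ∈ P.powerset, h A := by
  rw [sum_mul_sum, ← sum_product']
  refine dp_inj (g := fun t : Finset ℕ × Finset ℕ => (∏ q ∈ t.1, w q) * h t.2)
    (fun T => (T.filter g, T.filter fun q => ¬ g q)) (fun T _ T' _ e => ?_) (fun T hT => ?_)
    (fun _ _ => le_rfl) fun t ht => mul_nonneg (prod_nonneg fun q hq =>
      hw q ((mem_filter.1 (mem_product.1 ht).1).2 q hq)) (h0 _)
  · rw [← filter_union_filter_not_eq g T, ← filter_union_filter_not_eq g T']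
    exact congrArg₂ (· ∪ ·) (congrArg Prod.fst e) (congrArg Prod.snd e)
  · exact mem_product.2 ⟨mem_filter.2 ⟨hd T hT _ (filter_subset _ _), fun q hq =>
      (mem_filter.1 hq).2⟩, mem_powerset.2 fun q hq =>
        hP T hT q (mem_filter.1 hq).1 (mem_filter.1 hq).2⟩

theorem fam2 (F : Finset (Finset ℕ)) (hd : ∀ T ∈ F, ∀ T' ⊆ T, T' ∈ F) (h0 : ∅ ∈ F)
    (g g' : ℕ → Prop) [DecidablePred g] [DecidablePred g'] (w : ℕ → ℝ) (hw : ∀ q, g q → 0 ≤ w q)
    (hw' : ∀ q, g' q → 0 ≤ w q) (P : Finset ℕ) (hP : ∀ T ∈ F, ∀ q ∈ T, ¬ g q → q ∈ P)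
    (hP' : ∀ T ∈ F, ∀ q ∈ T, ¬ g' q → q ∈ P) (κ β : Finset ℕ → Finset ℕ → ℝ) (κ0 : κ ∅ ∅ = 1)
    (β0 : ∀ A B, 0 ≤ β A B)
    (hκ : ∀ T ∈ F, ∀ T' ∈ F, |κ (T.filter fun q => ¬ g q) (T'.filter fun q => ¬ g' q)| ≤
      β (T.filter fun q => ¬ g q) (T'.filter fun q => ¬ g' q))
    (hb : ∑ A ∈ P.powerset, ∑ B ∈ P.powerset, β A B ≤ 19 / 10) :
    1 / 10 ≤ ∑ T ∈ F, ∑ T' ∈ F, (∏ q ∈ T with g q, w q) * ((∏ q ∈ T' with g' q, w q) *
      κ (T.filter fun q => ¬ g q) (T'.filter fun q => ¬ g' q)) := by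
  have key : ∀ (g : ℕ → Prop) [DecidablePred g], (∀ q, g q → 0 ≤ w q) →
      1 ≤ ∑ T ∈ F with ∀ q ∈ T, g q, ∏ q ∈ T, w q := fun g _ hw => by
    have := single_le_sum (f := fun T : Finset ℕ => ∏ q ∈ T, w q)
      (s := F.filter fun T => ∀ q ∈ T, g q)
      (fun T hT => prod_nonneg fun q hq => hw q ((mem_filter.1 hT).2 q hq))
      (mem_filter.2 ⟨h0, by simp⟩)
    rwa [prod_empty] at this
  have k1 := key g hw
  have k2 := key g' hw'
  set W := ∑ T ∈ F with ∀ q ∈ T, g q, ∏ q ∈ T, w q with hW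
  set W' := ∑ T ∈ F with ∀ q ∈ T, g' q, ∏ q ∈ T, w q with hW'
  have p1 : ∀ T : Finset ℕ, 0 ≤ ∏ q ∈ T with g q, w q := fun T =>
    prod_nonneg fun q hq => hw q (mem_filter.1 hq).2
  have p2 : ∀ T : Finset ℕ, 0 ≤ ∏ q ∈ T with g' q, w q := fun T =>
    prod_nonneg fun q hq => hw' q (mem_filter.1 hq).2
  have h1 : ∑ T ∈ F, ∑ T' ∈ F, (∏ q ∈ T with g q, w q) * ((∏ q ∈ T' with g' q, w q) *
      β (T.filter fun q => ¬ g q) (T'.filter fun q => ¬ g' q)) ≤ W * (W' * (19 / 10)) := by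
    refine (sum_le_sum (g := fun T => (∏ q ∈ T with g q, w q) * (W' * ∑ B ∈ P.powerset,
      β (T.filter fun q => ¬ g q) B)) fun T _ => ?_).trans ((fam1 F hd g w hw P hP
      (fun A => W' * ∑ B ∈ P.powerset, β A B) fun A => mul_nonneg (by linarith)
        (sum_nonneg fun B _ => β0 A B)).trans ?_)
    · rw [← mul_sum]
      exact mul_le_mul_of_nonneg_left (fam1 F hd g' w hw' P hP' _ (β0 _)) (p1 T)
    · rw [← mul_sum]
      exact mul_le_mul_of_nonneg_left (mul_le_mul_of_nonneg_left hb (by linarith)) (by linarith)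
  have h2 : 2 * (W * W') - ∑ T ∈ F, ∑ T' ∈ F, (∏ q ∈ T with g q, w q) *
      ((∏ q ∈ T' with g' q, w q) * β (T.filter fun q => ¬ g q) (T'.filter fun q => ¬ g' q)) ≤
      ∑ T ∈ F, ∑ T' ∈ F, (∏ q ∈ T with g q, w q) * ((∏ q ∈ T' with g' q, w q) *
      κ (T.filter fun q => ¬ g q) (T'.filter fun q => ¬ g' q)) := by
    rw [hW, hW', sum_filter, sum_filter, sum_mul_sum, mul_sum, ← sum_sub_distrib]
    refine sum_le_sum fun T hT => ?_
    rw [mul_sum, ← sum_sub_distrib]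
    refine sum_le_sum fun T' hT' => ?_
    have a1 := hκ T hT T' hT'
    have a2 := mul_nonneg (p1 T) (p2 T')
    by_cases c : (∀ q ∈ T, g q) ∧ ∀ q ∈ T', g' q
    · rw [filter_false_of_mem fun q hq => not_not.2 (c.1 q hq),
        filter_false_of_mem fun q hq => not_not.2 (c.2 q hq), κ0] at a1 ⊢
      rw [filter_true_of_mem c.1, filter_true_of_mem c.2] at a2 ⊢
      rw [if_pos c.1, if_pos c.2]
      rw [abs_one] at a1
      nlinarith [mul_le_mul_of_nonneg_left a1 a2]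
    · rw [ite_zero_mul_ite_zero, if_neg c]
      nlinarith [mul_le_mul_of_nonneg_left (neg_le_of_abs_le a1) a2]
  nlinarith [mul_le_mul k1 k2 zero_le_one (by linarith)]

end Pool.Agent.Lib.KL3
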